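import Mathlib

set_option autoImplicit false

namespace Pool.Agent.H582Z.Frog

open Finset
open Classical

/-- A finite product probability space, as data. -/
structure PM (V T : Type) where
  U : Finset V
  B : Finset T
  mu : V → T → ℝ
  t0 : T
  nn : ∀ u t, 0 ≤ mu u t
  sum1 : ∀ u ∈ U, ∑ t ∈ B, mu u t = 1
  t0mem : t0 ∈ B

variable {V T : Type}

noncomputable def PM.ext (M : PM V T) (z : M.U → T) : V → T :=
  fun u => if h : u ∈ M.U then z ⟨u, h⟩ else M.t0

noncomputable def PM.w (M : PM V T) (z : M.U → T) : ℝ := ∏ u : M.U, M.mu u (z u)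

noncomputable def PM.S (M : PM V T) : Finset (M.U → T) := Fintype.piFinset (fun _ : M.U => M.B)

noncomputable def PM.E (M : PM V T) (F : (V → T) → ℝ) : ℝ :=
  ∑ z ∈ M.S, M.w z * F (M.ext z)

def Dep (F : (V → T) → ℝ) (S : Set V) : Prop :=
  ∀ y y' : V → T, (∀ u ∈ S, y u = y' u) → F y = F y'

theorem Dep.mono {F : (V → T) → ℝ} {S S' : Set V} (h : Dep F S) (hs : S ⊆ S') : Dep F S' :=
  fun y y' hy => h y y' (fun u hu => hy u (hs hu))

namespace PM

variable (M : PM V T)

theorem w_nn (z : M.U → T) : 0 ≤ M.w z := prod_nonneg (fun _ _ => M.nn _ _)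

theorem w_sum : ∑ z ∈ M.S, M.w z = 1 := by
  unfold w S
  rw [← Finset.prod_univ_sum (fun _ : M.U => M.B) (fun u t => M.mu u t)]
  exact prod_eq_one (fun u _ => M.sum1 u u.2)

theorem mem_S {z : M.U → T} : z ∈ M.S ↔ ∀ u, z u ∈ M.B := Fintype.mem_piFinset

theorem ext_mem {z : M.U → T} (hz : z ∈ M.S) (u : V) : M.ext z u ∈ M.B := by
  unfold ext
  split_ifs with h
  · exact Fintype.mem_piFinset.1 hz _
  · exact M.t0mem

theorem ext_out (z : M.U → T) {u : V} (hu : u ∉ M.U) : M.ext z u = M.t0 := by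
  unfold ext; rw [dif_neg hu]

theorem E_mono' {F G : (V → T) → ℝ}
    (h : ∀ y : V → T, (∀ u, y u ∈ M.B) → (∀ u, u ∉ M.U → y u = M.t0) → F y ≤ G y) :
    M.E F ≤ M.E G :=
  sum_le_sum (fun z hz => mul_le_mul_of_nonneg_left
    (h _ (M.ext_mem hz) (fun _ hu => M.ext_out z hu)) (M.w_nn z))

theorem E_mono {F G : (V → T) → ℝ} (h : ∀ y : V → T, F y ≤ G y) : M.E F ≤ M.E G :=
  M.E_mono' (fun y _ _ => h y)

theorem E_congr' {F G : (V → T) → ℝ}
    (h : ∀ y : V → T, (∀ u, y u ∈ M.B) → (∀ u, u ∉ M.U → y u = M.t0) → F y = G y) :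
    M.E F = M.E G :=
  le_antisymm (M.E_mono' (fun y a b => (h y a b).le)) (M.E_mono' (fun y a b => (h y a b).ge))

theorem E_const (c : ℝ) : M.E (fun _ => c) = c := by
  unfold E
  rw [← sum_mul, M.w_sum, one_mul]

theorem E_add (F G : (V → T) → ℝ) : M.E (fun y => F y + G y) = M.E F + M.E G := by
  unfold E
  rw [← sum_add_distrib]
  exact sum_congr rfl (fun z _ => by ring)

theorem E_sub (F G : (V → T) → ℝ) : M.E (fun y => F y - G y) = M.E F - M.E G := by
  unfold E
  rw [← sum_sub_distrib]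
  exact sum_congr rfl (fun z _ => by ring)

theorem E_smul (c : ℝ) (F : (V → T) → ℝ) : M.E (fun y => c * F y) = c * M.E F := by
  unfold E
  rw [mul_sum]
  exact sum_congr rfl (fun z _ => by ring)

theorem E_sum {ι : Type} (s : Finset ι) (F : ι → (V → T) → ℝ) :
    M.E (fun y => ∑ i ∈ s, F i y) = ∑ i ∈ s, M.E (F i) := by
  unfold E
  rw [sum_comm]
  exact sum_congr rfl (fun z _ => by rw [mul_sum])

theorem E_nonneg {F : (V → T) → ℝ} (h : ∀ y, 0 ≤ F y) : 0 ≤ M.E F := by
  have := M.E_mono (F := fun _ => 0) (G := F) h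
  rwa [M.E_const] at this

theorem E_le {F : (V → T) → ℝ} {c : ℝ} (h : ∀ y, F y ≤ c) : M.E F ≤ c := by
  have := M.E_mono (F := F) (G := fun _ => c) h
  rwa [M.E_const] at this

noncomputable def pw (S : Set V) (z z' : M.U → T) : M.U → T :=
  fun u => if (u : V) ∈ S then z u else z' u

theorem pw_mem (S : Set V) {z z' : M.U → T} (hz : z ∈ M.S) (hz' : z' ∈ M.S) :
    M.pw S z z' ∈ M.S := by
  refine Fintype.mem_piFinset.2 (fun u => ?_)
  unfold pw
  split_ifs
  · exact Fintype.mem_piFinset.1 hz _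
  · exact Fintype.mem_piFinset.1 hz' _

theorem pw_pw (S : Set V) (z z' : M.U → T) :
    M.pw S (M.pw S z z') (M.pw S z' z) = z := by
  funext u
  unfold pw
  split_ifs <;> rfl

theorem w_pw (S : Set V) (z z' : M.U → T) :
    M.w (M.pw S z z') * M.w (M.pw S z' z) = M.w z * M.w z' := by
  unfold w
  rw [← prod_mul_distrib, ← prod_mul_distrib]
  refine prod_congr rfl (fun u _ => ?_)
  unfold pw
  split_ifs
  · rfl
  · ring

theorem freeze (G : (V → T) → (V → T) → ℝ) (S : Set V)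
    (h1 : ∀ y', Dep (fun y => G y y') S) (h2 : ∀ y, Dep (fun y' => G y y') Sᶜ) :
    M.E (fun y => G y y) = M.E (fun y' => M.E (fun y => G y y')) := by
  have hL : M.E (fun y => G y y)
      = ∑ p ∈ M.S ×ˢ M.S, M.w p.1 * M.w p.2 * G (M.ext p.1) (M.ext p.1) := by
    rw [sum_product]
    unfold E
    refine sum_congr rfl (fun z _ => ?_)
    have : ∑ y ∈ M.S, M.w z * M.w y * G (M.ext z) (M.ext z)
        = (M.w z * G (M.ext z) (M.ext z)) * ∑ y ∈ M.S, M.w y := by
      rw [mul_sum]; exact sum_congr rfl (fun y _ => by ring)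
    simp only
    rw [this, M.w_sum, mul_one]
  have hR : M.E (fun y' => M.E (fun y => G y y'))
      = ∑ p ∈ M.S ×ˢ M.S, M.w p.1 * M.w p.2 * G (M.ext p.1) (M.ext p.2) := by
    rw [sum_product_right]
    unfold E
    refine sum_congr rfl (fun z _ => ?_)
    simp only
    rw [mul_sum]
    exact sum_congr rfl (fun y _ => by ring)
  rw [hL, hR]
  symm
  refine sum_bij' (fun p _ => (M.pw S p.1 p.2, M.pw S p.2 p.1))
    (fun p _ => (M.pw S p.1 p.2, M.pw S p.2 p.1)) ?_ ?_ ?_ ?_ ?_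
  · intro p hp
    rw [mem_product] at hp ⊢
    exact ⟨M.pw_mem S hp.1 hp.2, M.pw_mem S hp.2 hp.1⟩
  · intro p hp
    rw [mem_product] at hp ⊢
    exact ⟨M.pw_mem S hp.1 hp.2, M.pw_mem S hp.2 hp.1⟩
  · intro p _
    simp only [M.pw_pw]
  · intro p _
    simp only [M.pw_pw]
  · intro p _
    simp only
    rw [M.w_pw]
    congr 1
    have e1 : G (M.ext p.1) (M.ext p.2) = G (M.ext (M.pw S p.1 p.2)) (M.ext p.2) := by
      refine h1 _ _ _ (fun u hu => ?_)
      unfold ext pw
      split_ifs <;> rfl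
    have e2 : G (M.ext (M.pw S p.1 p.2)) (M.ext p.2)
        = G (M.ext (M.pw S p.1 p.2)) (M.ext (M.pw S p.1 p.2)) := by
      refine h2 _ _ _ (fun u hu => ?_)
      have hu' : u ∉ S := hu
      unfold ext pw
      split_ifs <;> rfl
    rw [e1, e2]

theorem E_mul {F G : (V → T) → ℝ} (S : Set V) (hF : Dep F S) (hG : Dep G Sᶜ) :
    M.E (fun y => F y * G y) = M.E F * M.E G := by
  rw [M.freeze (fun y y' => F y * G y') S (fun y' a b h => by simp only [hF a b h])
    (fun y a b h => by simp only [hG a b h])]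
  have : (fun y' => M.E (fun y => F y * G y')) = fun y' => M.E F * G y' := by
    funext y'
    rw [mul_comm, ← M.E_smul]
    congr 1; funext y; ring
  rw [this, M.E_smul]

theorem E_prod {ι : Type} (s : Finset ι) (F : ι → (V → T) → ℝ) (S : ι → Set V)
    (hF : ∀ i ∈ s, Dep (F i) (S i))
    (hS : ∀ i ∈ s, ∀ j ∈ s, i ≠ j → Disjoint (S i) (S j)) :
    M.E (fun y => ∏ i ∈ s, F i y) = ∏ i ∈ s, M.E (F i) := by
  induction s using Finset.induction_on with
  | empty => simp [M.E_const]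
  | insert a s ha ih =>
    simp only [prod_insert ha]
    rw [M.E_mul (S a) (hF a (mem_insert_self _ _)),
      ih (fun i hi => hF i (mem_insert_of_mem hi))
        (fun i hi j hj => hS i (mem_insert_of_mem hi) j (mem_insert_of_mem hj))]
    intro y y' h
    refine prod_congr rfl (fun i hi => hF i (mem_insert_of_mem hi) y y' (fun u hu => h u ?_))
    have hd := hS i (mem_insert_of_mem hi) a (mem_insert_self _ _) (fun e => ha (e ▸ hi))
    exact Set.disjoint_left.1 hd hu

theorem E_single {u : V} (hu : u ∈ M.U) (f : T → ℝ) :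
    M.E (fun y => f (y u)) = ∑ t ∈ M.B, M.mu u t * f t := by
  unfold E w S
  have key : ∀ z : M.U → T, (∏ v : M.U, M.mu v (z v)) * f (M.ext z u)
      = ∏ v : M.U, (M.mu v (z v) * if v = ⟨u, hu⟩ then f (z v) else 1) := by
    intro z
    rw [prod_mul_distrib, prod_ite_eq']
    simp [ext, hu]
  simp only [key]
  rw [← Finset.prod_univ_sum (fun _ : M.U => M.B)
    (fun v t => M.mu v t * if v = ⟨u, hu⟩ then f t else 1)]
  rw [← Finset.mul_prod_erase univ _ (mem_univ (⟨u, hu⟩ : M.U))]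
  have : ∏ v ∈ univ.erase (⟨u, hu⟩ : M.U),
      ∑ t ∈ M.B, (M.mu v t * if v = ⟨u, hu⟩ then f t else 1) = 1 := by
    refine prod_eq_one (fun v hv => ?_)
    have hv' := (mem_erase.1 hv).1
    simp only [hv', if_false, mul_one]
    exact M.sum1 v v.2
  rw [this]
  simp

/-- conditioning on all coordinates but one -/
theorem E_coord {u : V} (hu : u ∈ M.U) (G : T → (V → T) → ℝ)
    (hG : ∀ t, Dep (G t) {u}ᶜ) :
    M.E (fun y => G (y u) y) = M.E (fun y => ∑ t ∈ M.B, M.mu u t * G t y) := by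
  rw [M.freeze (fun y y' => G (y u) y') {u}
    (fun y' a b h => by simp only [h u rfl]) (fun y => hG (y u))]
  congr 1
  funext y'
  exact M.E_single hu (fun t => G t y')

end PM

end Pool.Agent.H582Z.Frog
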