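import Pool.Agent.H582Z.Frog.Walk

set_option autoImplicit false

namespace Pool.Agent.H582Z.Frog

open Finset
open Classical

def Kroot (w : List ℕ) : List ℕ → Prop := fun z => z.getLast? ≠ w.getLast?

theorem suffix_getLast {w y : List ℕ} (hw : w ≠ []) (h : w <:+ y) : y.getLast? = w.getLast? := by
  obtain ⟨t, rfl⟩ := h
  rw [List.getLast?_append]
  cases hl : w.getLast? with
  | none => exact absurd (List.getLast?_eq_none_iff.1 hl) hw
  | some a => rfl

theorem kroot_out {w : List ℕ} (hw : w ≠ []) : ∀ y, Kroot w y → ¬ w <:+ y :=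
  fun _ hk h => hk (suffix_getLast hw h)

def BadL (k : ℕ) (y : List ℕ → List ℕ) (l : List ℕ) : Prop :=
  ∀ w : List ℕ, w.length = k → w <:+ l → Avoid w y (Kroot w) l

namespace Net

variable (N : Net)

theorem ms_lb {i : ℕ} {v : List ℕ} (hw : N.Valid (i :: v)) (hl : (i :: v).length ≤ N.n) :
    (1 / 6) ^ (v.length + 1) / 2 ≤ N.ms (N.H v) (Kroot (i :: v)) := by
  induction v generalizing i with
  | nil =>
    have hn : ([] : List ℕ).length < N.n := by simp at hl ⊢; omega
    obtain ⟨j, hj, hji⟩ : ∃ j, j < N.d [] ∧ j ≠ i := by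
      have := N.lo []
      by_cases h : i = 0
      · exact ⟨1, by omega, by omega⟩
      · exact ⟨0, by omega, by omega⟩
    have h1 : ∑ y ∈ N.L, N.b [j] / N.D [] * N.Hd [j] y ≤ N.ms (N.H []) (Kroot [i]) := by
      refine sum_le_sum (fun y _ => ?_)
      by_cases hy : [j] <:+ y
      · rw [if_pos, N.H_child (v := []) trivial hn hj hy]
        unfold Kroot
        rw [suffix_getLast (by simp) hy]
        simpa using hji
      · rw [N.Hd_supp hy, mul_zero]
        split_ifs
        · exact N.H_nn _ _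
        · exact le_rfl
    rw [← mul_sum, N.Hd_sum (v := [j]) ⟨hj, trivial⟩ (by simpa using hl), mul_one] at h1
    refine le_trans ?_ h1
    rw [le_div_iff₀ (by linarith [N.D_ge []])]
    have := N.D_le []
    have := N.b_ge [j]
    simp only [List.length_nil]
    linarith
  | cons j v ih =>
    have e : Kroot (i :: j :: v) = Kroot (j :: v) := by
      funext z; simp [Kroot, List.getLast?_cons_cons]
    have hl' : (j :: v).length < N.n := by simp at hl ⊢; omega
    rw [e, N.ms_cons (kroot_out (by simp))]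
    have h1 := ih hw.2 hl'.le
    have h2 := N.b_int_le hl'
    have h3 : (0:ℝ) ≤ (1 / 6) ^ (v.length + 1) / 2 := by positivity
    have := mul_le_mul (by linarith : (1 / 6 : ℝ) ≤ 1 - N.b (j :: v)) h1 h3 (by linarith)
    rw [List.length_cons, pow_succ]
    linarith

theorem cur_lb {w : List ℕ} (hw : N.Valid w) (hne : w ≠ []) (hl : w.length ≤ N.n) :
    (1 / 6) ^ w.length / 4 ≤ N.cur w (Kroot w) := by
  cases w with
  | nil => exact absurd rfl hne
  | cons i v =>
    have h1 := N.ms_lb hw hl
    have h3 : (0:ℝ) ≤ (1 / 6) ^ (v.length + 1) / 2 := by positivity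
    have := mul_le_mul (N.b_ge (i :: v)) h1 h3 (by linarith [N.b_ge (i :: v)])
    unfold cur
    rw [List.tail_cons, List.length_cons]
    linarith

theorem badK_le {k : ℕ} (hk : 1 ≤ k) (hn : k ≤ N.n) {ε : ℝ}
    (h : ∀ w, N.Valid w → w.length = k → N.PA w (Kroot w) ≤ ε) :
    N.PMH.E (fun y => if BadL k y (y []) then 1 else 0) ≤ ε := by
  have e1 := N.PMH.E_coord (u := []) (N.mem_U.2 ⟨trivial, by simp⟩)
    (fun t y => if BadL k y t then 1 else 0) (by
      intro t y y' hy
      have : BadL k y t ↔ BadL k y' t := by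
        refine forall_congr' (fun w => forall_congr' (fun hw => forall_congr' (fun _ => ?_)))
        rw [avoid_congr (y := y) (y' := y')]
        intro u hu
        refine hy u ?_
        rintro rfl
        have := hu.length_le
        simp only [List.length_nil] at this
        omega
      simp only [this])
  rw [e1]
  have e2 : (fun y => ∑ t ∈ N.PMH.B, N.PMH.mu [] t * if BadL k y t then 1 else 0)
      = fun y => N.ms (N.Hd []) (BadL k y) := by
    funext y
    refine sum_congr rfl (fun t _ => ?_)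
    change N.Hd [] t * _ = _
    split_ifs <;> simp
  rw [e2]
  have key : ∀ j, ∀ u, N.Valid u → u.length + j = k →
      N.PMH.E (fun y => N.ms (N.Hd u) (BadL k y)) ≤ ε := by
    intro j
    induction j with
    | zero =>
      intro u hu hl
      refine le_trans (N.PMH.E_mono (fun y => ?_)) (h u hu hl)
      refine sum_le_sum (fun l _ => ?_)
      by_cases hul : u <:+ l
      · by_cases hb : BadL k y l
        · rw [if_pos hb, if_pos (hb u hl hul)]
        · rw [if_neg hb]
          split_ifs
          · exact N.Hd_nn _ _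
          · exact le_rfl
      · rw [N.Hd_supp hul]; simp
    | succ j ih =>
      intro u hu hl
      simp only [N.ms_Hd_int (by omega : u.length < N.n)]
      rw [N.PMH.E_sum]
      simp only [N.PMH.E_smul]
      exact N.avg_le _ _ (fun i hi => ih _ ⟨hi, hu⟩ (by simp; omega))
  exact key k [] trivial (by simp)

noncomputable def GN (k m : ℕ) (z : List ℕ × ℕ → ℕ) : ℝ :=
  if ∀ u ∈ N.U, Yw N.d N.n z u m ∈ N.L then
    (if BadL k (N.yOf m z) (N.yOf m z []) then 1 else 0) else 1

end Net

theorem net_ext {N N' : Net} (h1 : N.d = N'.d) (h2 : N.n = N'.n) : N = N' := by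
  cases N; cases N'; simp only at h1 h2; subst h1; subst h2; rfl

def AU (n : ℕ) : Finset (List ℕ) := (range (n + 1)).biUnion addr

def IZ (n m : ℕ) : Finset (List ℕ × ℕ) := AU n ×ˢ range (m + 1)

theorem finalZ : ∃ p : ℝ, ∃ h0 : 0 ≤ p, ∃ h1 : p < 1, ∀ k : ℕ, 1 ≤ k → ∀ ε : ℝ, 0 < ε →
    ∃ n m : ℕ, (PMZ h0 h1.le (IZ n m)).E (fun z => (netOf z n).GN k m z) ≤ ε := by
  obtain ⟨N0, L0, hmulti⟩ := multi
  have e0 : 0 < epsk N0 0 := by unfold epsk; positivity
  set C := ∑ k ∈ range L0, (5:ℝ) ^ k with hC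
  have hC0 : 0 ≤ C := sum_nonneg (fun _ _ => by positivity)
  set q := min 1 (epsk N0 0 / (C + 1)) with hq
  have hq0 : 0 < q := lt_min one_pos (by positivity)
  have hq1 : q ≤ 1 := min_le_left _ _
  have hq2 : C * (1 - (1 - q)) ≤ epsk N0 0 := by
    have : q ≤ epsk N0 0 / (C + 1) := min_le_right _ _
    rw [le_div_iff₀ (by linarith)] at this
    nlinarith
  refine ⟨1 - q, by linarith, by linarith, fun k hk ε hε => ?_⟩
  have t1 : Filter.Tendsto (fun j : ℕ => (5:ℝ) ^ k * (1 / 2) ^ j) Filter.atTop (nhds 0) := by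
    simpa using (tendsto_pow_atTop_nhds_zero_of_lt_one (by norm_num : (0:ℝ) ≤ 1 / 2)
      (by norm_num)).const_mul ((5:ℝ) ^ k)
  have t0 : Filter.Tendsto (fun j : ℕ => (N0:ℝ) + j / 20) Filter.atTop Filter.atTop :=
    Filter.tendsto_atTop_add_const_left _ _
      (tendsto_natCast_atTop_atTop.atTop_div_const (by norm_num))
  have t2 : Filter.Tendsto (fun j : ℕ => eta ((N0:ℝ) + j / 20)) Filter.atTop (nhds 0) := by
    have := Real.tendsto_exp_neg_atTop_nhds_zero.comp
      (t0.atTop_div_const (by norm_num : (0:ℝ) < 240))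
    refine this.congr (fun j => ?_)
    simp only [Function.comp, eta, neg_div]
  have t3 : Filter.Tendsto (fun j : ℕ => Real.exp (-((N0:ℝ) + j / 20) * ((1 / 6) ^ k / 4)))
      Filter.atTop (nhds 0) := by
    have := Real.tendsto_exp_neg_atTop_nhds_zero.comp
      (t0.atTop_mul_const (by positivity : (0:ℝ) < (1 / 6) ^ k / 4))
    refine this.congr (fun j => ?_)
    simp only [Function.comp, neg_mul]
  have h4 : (0:ℝ) < ε / 4 := by linarith
  obtain ⟨j, ⟨j1, j2⟩, j3⟩ := (((t1.eventually (ge_mem_nhds h4)).and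
    (t2.eventually (ge_mem_nhds h4))).and (t3.eventually (ge_mem_nhds h4))).exists
  set n := k + Ld N0 L0 j with hn
  have t4 : Filter.Tendsto (fun m : ℕ => ((AU n).card : ℝ) * ((10 / 7) ^ n * (19 / 20) ^ m))
      Filter.atTop (nhds 0) := by
    simpa using ((tendsto_pow_atTop_nhds_zero_of_lt_one (by norm_num : (0:ℝ) ≤ 19 / 20)
      (by norm_num)).const_mul ((10 / 7 : ℝ) ^ n)).const_mul ((AU n).card : ℝ)
  obtain ⟨m, hm⟩ := (t4.eventually (ge_mem_nhds h4)).exists
  refine ⟨n, m, ?_⟩
  set M := PMZ (p := 1 - q) (by linarith) (by linarith) (IZ n m) with hM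
  have s1 := M.freeze (fun z z' => (netOf z' n).GN k m z) {i | i.2 ≠ 0} (by
      intro z' z1 z2 h
      have : ∀ u, Yw (netOf z' n).d (netOf z' n).n z1 u m = Yw (netOf z' n).d (netOf z' n).n z2 u m :=
        fun u => Yw_congr _ _ u m (fun s _ => h _ (by simp))
      have e : (netOf z' n).yOf m z1 = (netOf z' n).yOf m z2 := by
        simp only [Net.yOf, this]
      simp only [Net.GN, this]
      rw [e]) (by
      intro z z1 z2 h
      have : netOf z1 n = netOf z2 n := net_ext (by
        funext w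
        change tree z1 w = tree z2 w
        unfold tree
        rw [h (w, 0) (by simp)]) rfl
      simp only [this])
  rw [s1]
  have s2 : ∀ z', M.E (fun z => (netOf z' n).GN k m z)
      ≤ (∑ w ∈ addr k, badG N0 L0 j w z') + 3 * (ε / 4) := by
    intro z'
    set N := netOf z' n with hN
    have hU : N.U ⊆ AU n := filter_subset _ _
    have a1 := N.push (tree_cases z') (p := 1 - q) (by linarith) (by linarith) (IZ n m) m
      (fun u hu s hs => mem_product.2 ⟨hU hu, mem_range.2 (by omega)⟩)
      (fun y => if BadL k y (y []) then 1 else 0) (fun y => by split_ifs <;> norm_num)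
    have a2 : (N.U.card : ℝ) * ((10 / 7) ^ N.n * (19 / 20) ^ m) ≤ ε / 4 := by
      refine le_trans (mul_le_mul_of_nonneg_right ?_ (by positivity)) hm
      exact_mod_cast card_le_card hU
    have a3 : N.PMH.E (fun y => if BadL k y (y []) then 1 else 0)
        ≤ (∑ w ∈ addr k, badG N0 L0 j w z') + 2 * (ε / 4) := by
      refine N.badK_le hk (by change k ≤ n; omega) (fun w hw hl => ?_)
      have hnn := sum_nonneg (s := addr k) (fun w _ => badG_nn N0 L0 j w z')
      have hln : w.length ≤ N.n := by change _ ≤ n; omega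
      by_cases hg : Good N.d N0 L0 j w
      · have hne : w ≠ [] := by rintro rfl; simp at hl; omega
        have b1 := hmulti j N w hw (by change _ ≤ n; omega) hg (Kroot w) (kroot_out hne)
        have b2 := N.cur_lb hw hne hln
        rw [hl] at b2
        have b3 : Real.exp (-((N0:ℝ) + j / 20) * N.cur w (Kroot w))
            ≤ Real.exp (-((N0:ℝ) + j / 20) * ((1 / 6) ^ k / 4)) := by
          refine Real.exp_le_exp.2 ?_
          have : (0:ℝ) ≤ N0 + j / 20 := by positivity
          nlinarith
        have b4 := eta_pos ((N0:ℝ) + j / 20)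
        have b5 := Real.exp_pos (-((N0:ℝ) + j / 20) * N.cur w (Kroot w))
        nlinarith
      · have b1 := single_le_sum (s := addr k) (fun w _ => badG_nn N0 L0 j w z')
          (mem_addr.2 ⟨hl, N.valid_lt hw⟩)
        have b2 : badG N0 L0 j w z' = 1 := if_neg hg
        linarith [N.PA_le_one hw hln (Kroot w)]
    have a4 : M.E (fun z => N.GN k m z) ≤ _ := a1
    linarith
  refine (M.E_mono s2).trans ?_
  rw [M.E_add, M.E_const, M.E_sum]
  have s3 := sum_le_card_nsmul (addr k) (fun w => M.E (badG N0 L0 j w)) _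
    (fun w _ => bad_prob _ _ (IZ n m) N0 L0 hq2 j w)
  rw [nsmul_eq_mul] at s3
  have c1 : ((addr k).card : ℝ) ≤ 5 ^ k := by exact_mod_cast card_addr _
  have c2 : epsk N0 j ≤ (1 / 2) ^ j := by
    unfold epsk
    exact mul_le_of_le_one_left (by positivity) (pow_le_one₀ (by norm_num) (by norm_num))
  have c3 := mul_le_mul c1 c2 (by unfold epsk; positivity) (by positivity)
  linarith

theorem Yw_step (d : List ℕ → ℕ) (n : ℕ) (z : List ℕ × ℕ → ℕ) (u : List ℕ) (t : ℕ) :
    Yw d n z u (t + 1) = Yw d n z u t ∨ Yw d n z u (t + 1) = (Yw d n z u t).tail ∨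
      ∃ i, Yw d n z u (t + 1) = i :: Yw d n z u t := by
  simp only [Yw, stp]
  split_ifs with h1 h2 h3
  · exact Or.inl rfl
  · exact Or.inr (Or.inr ⟨_, by rw [h2]⟩)
  · exact Or.inr (Or.inl rfl)
  · exact Or.inr (Or.inr ⟨_, rfl⟩)

theorem Yw_visit (d : List ℕ → ℕ) (n : ℕ) (z : List ℕ × ℕ → ℕ) (u w : List ℕ) (hw : ¬ w <:+ u)
    (m : ℕ) (h : w <:+ Yw d n z u m) : ∃ t ≤ m, Yw d n z u t = w := by
  induction m with
  | zero => exact absurd h hw
  | succ m ih =>
    by_cases h' : w <:+ Yw d n z u m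
    · obtain ⟨t, ht, e⟩ := ih h'
      exact ⟨t, by omega, e⟩
    · rcases Yw_step d n z u m with e | e | ⟨i, e⟩
      · exact absurd (e ▸ h) h'
      · exact absurd ((e ▸ h).trans (List.tail_suffix _)) h'
      · rw [e] at h
        rcases List.suffix_cons_iff.1 h with h2 | h2
        · exact ⟨m + 1, le_rfl, by rw [e, h2]⟩
        · exact absurd h2 h'

theorem Yw_root (d : List ℕ → ℕ) (n : ℕ) (z : List ℕ × ℕ → ℕ) (u : List ℕ)
    (m : ℕ) (h : (Yw d n z u m).getLast? ≠ u.getLast?) : ∃ t ≤ m, Yw d n z u t = [] := by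
  induction m with
  | zero => exact absurd rfl h
  | succ m ih =>
    by_cases h' : (Yw d n z u m).getLast? = u.getLast?
    · by_cases h0 : Yw d n z u m = []
      · exact ⟨m, by omega, h0⟩
      by_cases h1 : Yw d n z u (m + 1) = []
      · exact ⟨m + 1, le_rfl, h1⟩
      exfalso
      apply h
      rw [← h']
      rcases Yw_step d n z u m with e | e | ⟨i, e⟩
      · rw [e]
      · exact (suffix_getLast h1 (e ▸ List.tail_suffix _)).symm
      · exact suffix_getLast h0 (e ▸ List.suffix_cons _ _)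
    · obtain ⟨t, ht, e⟩ := ih h'
      exact ⟨t, by omega, e⟩

end Pool.Agent.H582Z.Frog
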