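import Pool.Agent.H582Z.Frog.Final

set_option autoImplicit false

namespace Pool.Agent.H582Z.Frog

open Finset MeasureTheory ProbabilityTheory
open Classical

noncomputable def Zf (p : ℝ) (i : List ℕ × ℕ) (x : ℝ) : ℕ :=
  if i.2 = 0 then (if x < p then 0 else 1) else ⌊30 * x⌋₊

noncomputable def cell (p : ℝ) (i : List ℕ × ℕ) (r : ℕ) : Set ℝ :=
  if i.2 = 0 then (if r = 0 then Set.Ico 0 p else if r = 1 then Set.Ico p 1 else ∅)
  else Set.Ico ((r:ℝ) / 30) ((r + 1) / 30)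

theorem cell_meas (p : ℝ) (i : List ℕ × ℕ) (r : ℕ) : MeasurableSet (cell p i r) := by
  unfold cell
  split_ifs
  · exact measurableSet_Ico
  · exact measurableSet_Ico
  · exact MeasurableSet.empty
  · exact measurableSet_Ico

theorem cell_vol (p : ℝ) (i : List ℕ × ℕ) (r : ℕ) :
    volume (cell p i r) = ENNReal.ofReal (muZ p i r) := by
  unfold cell muZ
  split_ifs
  · simp
  · simp
  · simp
  · rw [Real.volume_Ico]; congr 1; ring

theorem mem_cell (p : ℝ) (i : List ℕ × ℕ) {x : ℝ} (h0 : 0 ≤ x) (h1 : x < 1) :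
    x ∈ cell p i (Zf p i x) ∧ Zf p i x < 30 := by
  unfold cell Zf
  by_cases h : i.2 = 0
  · by_cases hx : x < p
    · simp [h, hx, h0]
    · simp [h, hx, h1, not_lt.1 hx]
  · simp only [h, if_false]
    have a1 := Nat.floor_le (by linarith : 0 ≤ 30 * x)
    have a2 := Nat.lt_floor_add_one (30 * x)
    refine ⟨⟨by linarith, by linarith⟩, ?_⟩
    rw [Nat.floor_lt (by linarith)]
    push_cast; linarith

theorem link {p : ℝ} (h0 : 0 ≤ p) (h1 : p ≤ 1) (I : Finset (List ℕ × ℕ))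
    {Ω : Type} [MeasurableSpace Ω] (P : Measure Ω) [IsProbabilityMeasure P]
    (V : List ℕ × ℕ → Ω → ℝ) (hind : iIndepFun V P)
    (hlaw : ∀ i, Measure.map (V i) P = (volume : Measure ℝ).restrict (Set.Icc (0:ℝ) 1))
    (F : (List ℕ × ℕ → ℕ) → ℝ) (hF : ∀ z, 0 ≤ F z) :
    P {ω | (∀ i, 0 ≤ V i ω ∧ V i ω < 1) ∧
      1 ≤ F ((PMZ h0 h1 I).ext (fun i => Zf p i (V i ω)))} ≤ ENNReal.ofReal ((PMZ h0 h1 I).E F) := by
  set M := PMZ h0 h1 I with hM
  have hae : ∀ i, AEMeasurable (V i) P := fun i =>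
    AEMeasurable.of_map_ne_zero (by
      rw [hlaw i]
      intro h
      have := congrArg (fun μ : Measure ℝ => μ Set.univ) h
      simp at this)
  have hc : ∀ i r, P (V i ⁻¹' cell p i r) ≤ ENNReal.ofReal (muZ p i r) := by
    intro i r
    rw [← Measure.map_apply_of_aemeasurable (hae i) (cell_meas p i r), hlaw i, ← cell_vol]
    exact Measure.restrict_apply_le _ _
  have hsub : {ω | (∀ i, 0 ≤ V i ω ∧ V i ω < 1) ∧ 1 ≤ F (M.ext (fun i => Zf p i (V i ω)))}
      ⊆ ⋃ x ∈ M.S.filter (fun x => 1 ≤ F (M.ext x)), ⋂ i ∈ M.U, V i ⁻¹' cell p i (M.ext x i) := by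
    rintro ω ⟨hω, hF1⟩
    simp only [Set.mem_iUnion, Set.mem_iInter]
    refine ⟨fun i => Zf p i (V i ω), mem_filter.2 ⟨M.mem_S.2 (fun i => ?_), hF1⟩, fun i hi => ?_⟩
    · exact mem_range.2 (mem_cell p i (hω i).1 (hω i).2).2
    · unfold PM.ext
      rw [dif_pos hi]
      exact (mem_cell p i (hω i).1 (hω i).2).1
  refine (measure_mono hsub).trans ((measure_biUnion_finset_le _ _).trans ?_)
  have hx : ∀ x ∈ M.S.filter (fun x => 1 ≤ F (M.ext x)),
      P (⋂ i ∈ M.U, V i ⁻¹' cell p i (M.ext x i)) ≤ ENNReal.ofReal (M.w x * F (M.ext x)) := by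
    intro x hx
    rw [hind.measure_inter_preimage_eq_mul M.U (sets := fun i => cell p i (M.ext x i))
      (fun i _ => cell_meas p i _)]
    refine (Finset.prod_le_prod' (fun i _ => hc i _)).trans ?_
    change ∏ i ∈ M.U, ENNReal.ofReal (M.mu i (M.ext x i)) ≤ _
    rw [← ENNReal.ofReal_prod_of_nonneg (fun i _ => M.nn i _)]
    refine ENNReal.ofReal_le_ofReal ?_
    have e : ∏ i ∈ M.U, M.mu i (M.ext x i) = M.w x := by
      unfold PM.w
      rw [← prod_coe_sort M.U]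
      refine prod_congr rfl (fun i _ => ?_)
      unfold PM.ext
      rw [dif_pos i.2]
    refine le_trans (le_of_eq e) ?_
    exact le_mul_of_one_le_right (M.w_nn x) (mem_filter.1 hx).2
  refine (sum_le_sum hx).trans ?_
  rw [← ENNReal.ofReal_sum_of_nonneg (fun x _ => mul_nonneg (M.w_nn x) (hF _))]
  refine ENNReal.ofReal_le_ofReal ?_
  exact sum_le_sum_of_subset_of_nonneg (filter_subset _ _)
    (fun x _ _ => mul_nonneg (M.w_nn x) (hF _))

theorem floor_eq (x : ℝ) (k c : ℕ) (hc : 30 / k = c) (hk : (k:ℝ) * c = 30) :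
    ⌊x * k⌋₊ = ⌊30 * x⌋₊ / (30 / k) := by
  rw [hc, ← Nat.floor_div_natCast]
  congr 1
  have : (c:ℝ) ≠ 0 := by rintro h; rw [h] at hk; norm_num at hk
  rw [← hk]; field_simp

theorem det {p : ℝ} (h0 : 0 ≤ p) (h1 : p ≤ 1) (V : List ℕ × ℕ → ℝ) (X : List ℕ → ℕ → List ℕ)
    (hV : ∀ i, 0 ≤ V i ∧ V i < 1) (hX0 : ∀ v, X v 0 = v)
    (hX : ∀ v n, X v (n+1) =
        if X v n = [] then
          [⌊V (v, n+1) * (if V (X v n, 0) < p then (2:ℝ) else 5)⌋₊]
        else if ⌊V (v, n+1) * (if V (X v n, 0) < p then (3:ℝ) else 6)⌋₊ = 0 then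
          (X v n).tail
        else
          (⌊V (v, n+1) * (if V (X v n, 0) < p then (3:ℝ) else 6)⌋₊ - 1) :: X v n)
    {k : ℕ} (hk : 1 ≤ k) (n m : ℕ)
    (hbad : ∀ u t, Relation.ReflTransGen (fun u w => ∃ m, X u m = w) [] u → X u t = [] →
      u.length < k) :
    1 ≤ (netOf ((PMZ h0 h1 (IZ n m)).ext (fun i => Zf p i (V i))) n).GN k m
      ((PMZ h0 h1 (IZ n m)).ext (fun i => Zf p i (V i))) := by
  set z := (PMZ h0 h1 (IZ n m)).ext (fun i => Zf p i (V i)) with hz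
  set N := netOf z n with hN
  have hU : N.U ⊆ AU n := filter_subset _ _
  have hzI : ∀ u ∈ N.U, ∀ s ≤ m, z (u, s) = Zf p (u, s) (V (u, s)) := by
    intro u hu s hs
    have : (u, s) ∈ (PMZ h0 h1 (IZ n m)).U := mem_product.2 ⟨hU hu, mem_range.2 (by omega)⟩
    rw [hz]
    unfold PM.ext
    rw [dif_pos this]
  have hz30 : ∀ i, z i < 30 := by
    intro i
    have : (fun i : (PMZ h0 h1 (IZ n m)).U => Zf p i (V i)) ∈ (PMZ h0 h1 (IZ n m)).S :=
      (PM.mem_S _).2 (fun i => mem_range.2 (mem_cell p i (hV i).1 (hV i).2).2)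
    exact mem_range.1 (PM.ext_mem _ this i)
  have hd : ∀ w ∈ N.U, N.d w = if V (w, 0) < p then 2 else 5 := by
    intro w hw
    change tree z w = _
    unfold tree
    rw [hzI w hw 0 (Nat.zero_le _)]
    unfold Zf
    by_cases h : V (w, 0) < p <;> simp [h]
  have hstep : ∀ u ∈ N.U, ∀ t < m, X u t ∈ N.U → X u (t + 1) = stp N.d (X u t) (z (u, t + 1)) := by
    intro u hu t ht hw
    rw [hX, hzI u hu (t + 1) ht]
    unfold stp Zf
    rw [hd _ hw]
    simp only [Nat.add_eq_zero_iff, one_ne_zero, and_false, if_false]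
    have f2 := floor_eq (V (u, t + 1)) 2 15 (by norm_num) (by norm_num)
    have f3 := floor_eq (V (u, t + 1)) 3 10 (by norm_num) (by norm_num)
    have f5 := floor_eq (V (u, t + 1)) 5 6 (by norm_num) (by norm_num)
    have f6 := floor_eq (V (u, t + 1)) 6 5 (by norm_num) (by norm_num)
    push_cast at f2 f3 f5 f6
    by_cases h : V (X u t, 0) < p
    · simp only [h, if_true, f2, f3]
    · simp only [h, if_false, f5, f6]
  have hY : ∀ u ∈ N.U, ∀ t ≤ m, ((Yw N.d N.n z u t).length < N.n → Yw N.d N.n z u t = X u t) ∧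
      ∃ t', X u t' = Yw N.d N.n z u t := by
    intro u hu t
    induction t with
    | zero => intro _; exact ⟨fun _ => (hX0 u).symm, 0, hX0 u⟩
    | succ t ih =>
      intro ht
      obtain ⟨i1, i2⟩ := ih (by omega)
      by_cases h : N.n ≤ (Yw N.d N.n z u t).length
      · have e : Yw N.d N.n z u (t + 1) = Yw N.d N.n z u t := if_pos h
        rw [e]
        exact ⟨fun h' => absurd h' (by omega), i2⟩
      · have e : Yw N.d N.n z u (t + 1) = stp N.d (Yw N.d N.n z u t) (z (u, t + 1)) := if_neg h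
        have e2 := i1 (by omega)
        have hv := N.Yw_valid (tree_cases z) hz30 (N.mem_U.1 hu).1 (N.mem_U.1 hu).2 t
        have e3 : Yw N.d N.n z u (t + 1) = X u (t + 1) := by
          rw [e, hstep u hu t ht (e2 ▸ N.mem_U.2 hv), e2]
        exact ⟨fun _ => e3, t + 1, e3.symm⟩
  unfold Net.GN
  split_ifs with hL hB
  · exact le_rfl
  · exfalso
    apply hB
    have hy : ∀ u ∈ N.U, N.yOf m z u = Yw N.d N.n z u m := by
      intro u hu
      unfold Net.yOf PM.ext
      exact dif_pos hu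
    have hvis : ∀ u ∈ N.U, ∀ w, w <:+ N.yOf m z u → ¬ w <:+ u → w ∈ N.U ∧ ∃ t, X u t = w := by
      intro u hu w h1 h2
      rw [hy u hu] at h1
      have hl := N.mem_L.1 (hL u hu)
      refine ⟨N.mem_U.2 ⟨N.valid_suffix hl.1 h1, hl.2 ▸ h1.length_le⟩, ?_⟩
      obtain ⟨t, ht, e⟩ := Yw_visit _ _ _ u w h2 m h1
      obtain ⟨t', e'⟩ := (hY u hu t ht).2
      exact ⟨t', e'.trans e⟩
    intro w hw _ u hu hK
    have hne : w ≠ [] := by rintro rfl; simp at hw; omega
    have hr : u ∈ N.U ∧ Relation.ReflTransGen (fun u w => ∃ m, X u m = w) [] u := by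
      clear hK
      induction hu with
      | base u h1 h2 =>
        have := hvis [] (N.mem_U.2 ⟨trivial, by simp⟩) u h2 (by
          intro h
          rw [List.suffix_nil.1 h] at h1
          exact hne (List.suffix_nil.1 h1))
        exact ⟨this.1, Relation.ReflTransGen.single this.2⟩
      | step u w' _ _ h3 h4 ih =>
        have := hvis u ih.1 w' h3 h4
        exact ⟨this.1, ih.2.tail this.2⟩
    have h2 : (Yw N.d N.n z u m).getLast? ≠ u.getLast? := by
      rw [← hy u hr.1, suffix_getLast hne hu.sub]; exact hK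
    obtain ⟨t, ht, e⟩ := Yw_root _ _ _ u m h2
    obtain ⟨t', e'⟩ := (hY u hr.1 t ht).2
    have := hbad u t' hr.2 (e'.trans e)
    have := hu.sub.length_le
    omega
  · exact le_rfl

theorem main :
  ∃ p : ℝ, 0 ≤ p ∧ p < 1 ∧
    ∀ (Ω : Type) [MeasurableSpace Ω] (P : Measure Ω) [IsProbabilityMeasure P]
      (V : List ℕ × ℕ → Ω → ℝ) (X : List ℕ → ℕ → Ω → List ℕ),
      iIndepFun V P →
      (∀ i, Measure.map (V i) P = (volume : Measure ℝ).restrict (Set.Icc (0:ℝ) 1)) →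
      (∀ v ω, X v 0 ω = v) →
      (∀ v n ω, X v (n+1) ω =
        if X v n ω = [] then
          [⌊V (v, n+1) ω * (if V (X v n ω, 0) ω < p then (2:ℝ) else 5)⌋₊]
        else if ⌊V (v, n+1) ω * (if V (X v n ω, 0) ω < p then (3:ℝ) else 6)⌋₊ = 0 then
          (X v n ω).tail
        else
          (⌊V (v, n+1) ω * (if V (X v n ω, 0) ω < p then (3:ℝ) else 6)⌋₊ - 1) :: X v n ω) →
      ∀ᵐ ω ∂P, Set.Infinite {q : List ℕ × ℕ |
        Relation.ReflTransGen (fun u w => ∃ m, X u m ω = w) [] q.1 ∧ X q.1 q.2 ω = []} := by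
  obtain ⟨p, h0, h1, hZ⟩ := finalZ
  refine ⟨p, h0, h1, fun Ω _ P _ V X hind hlaw hX0 hX => ?_⟩
  have hae : ∀ i, AEMeasurable (V i) P := fun i =>
    AEMeasurable.of_map_ne_zero (by
      rw [hlaw i]
      intro h
      have := congrArg (fun μ : Measure ℝ => μ Set.univ) h
      simp at this)
  have hV : ∀ᵐ ω ∂P, ∀ i, 0 ≤ V i ω ∧ V i ω < 1 := by
    rw [ae_all_iff]
    intro i
    have : ∀ᵐ x ∂(Measure.map (V i) P), x ∈ Set.Ico (0:ℝ) 1 := by
      rw [hlaw i, ← Measure.restrict_congr_set Ico_ae_eq_Icc]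
      exact ae_restrict_mem measurableSet_Ico
    exact ae_of_ae_map (hae i) this
  have hk : ∀ k : ℕ, ∀ᵐ ω ∂P, ¬ ((∀ i, 0 ≤ V i ω ∧ V i ω < 1) ∧
      ∀ u t, Relation.ReflTransGen (fun u w => ∃ m, X u m ω = w) [] u → X u t ω = [] →
        u.length < k + 1) := by
    intro k
    rw [ae_iff]
    simp only [not_not]
    refine le_antisymm (ENNReal.le_of_forall_pos_le_add (fun ε hε _ => ?_)) zero_le
    obtain ⟨n, m, hnm⟩ := hZ (k + 1) (by omega) ε hε
    have := link h0 h1.le (IZ n m) P V hind hlaw (fun z => (netOf z n).GN (k + 1) m z)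
      (fun z => by unfold Net.GN; split_ifs <;> norm_num)
    rw [zero_add, ← ENNReal.ofReal_coe_nnreal]
    refine le_trans (measure_mono ?_) (this.trans (ENNReal.ofReal_le_ofReal hnm))
    rintro ω ⟨hω, hb⟩
    exact ⟨hω, det h0 h1.le (fun i => V i ω) (fun v n => X v n ω) hω (fun v => hX0 v ω)
      (fun v n => hX v n ω) (by omega) n m hb⟩
  filter_upwards [hV, ae_all_iff.2 hk] with ω h1 h2
  intro hfin
  obtain ⟨k, hk⟩ := (hfin.image (fun q => q.1.length)).bddAbove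
  refine h2 k ⟨h1, fun u t hr ht => ?_⟩
  have := hk (Set.mem_image_of_mem _ (show (u, t) ∈ _ from ⟨hr, ht⟩))
  exact Nat.lt_succ_of_le this

end Pool.Agent.H582Z.Frog
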