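import Pool.Agent.H582Z.Frog.Num

set_option autoImplicit false

namespace Pool.Agent.H582Z.Frog

open Finset
open Classical

noncomputable def eta (A : ℝ) : ℝ := Real.exp (-A / 240)

theorem eta_pos (A : ℝ) : 0 < eta A := Real.exp_pos _

def Big (A : ℝ) : Prop :=
  0 ≤ A ∧ 25 * eta A * A ≤ Real.exp (-40000) / 180 ∧ 25 * eta A ≤ 1 / 2

theorem exists_big : ∃ N0 : ℕ, 400 ≤ N0 ∧ ∀ A : ℝ, (N0:ℝ) ≤ A → Big A := by
  have h1 : Filter.Tendsto (fun A : ℝ => 25 * eta A * A) Filter.atTop (nhds 0) := by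
    have := (Real.tendsto_pow_mul_exp_neg_atTop_nhds_zero 1).comp
      (Filter.tendsto_id.atTop_div_const (by norm_num : (0:ℝ) < 240))
    have := this.const_mul (25 * 240)
    rw [mul_zero] at this
    refine this.congr (fun A => ?_)
    simp only [Function.comp, id, eta, pow_one, neg_div]
    ring
  have h2 : Filter.Tendsto (fun A : ℝ => 25 * eta A) Filter.atTop (nhds 0) := by
    have := Real.tendsto_exp_neg_atTop_nhds_zero.comp
      (Filter.tendsto_id.atTop_div_const (by norm_num : (0:ℝ) < 240))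
    have := this.const_mul 25
    rw [mul_zero] at this
    refine this.congr (fun A => ?_)
    simp only [Function.comp, id, eta, neg_div]
  have h3 := (h1.eventually (ge_mem_nhds (by positivity : (0:ℝ) < Real.exp (-40000) / 180))).and
    (h2.eventually (ge_mem_nhds (by norm_num : (0:ℝ) < 1 / 2)))
  obtain ⟨a, ha⟩ := Filter.eventually_atTop.1 h3
  refine ⟨max 400 ⌈a⌉₊, le_max_left _ _, fun A hA => ?_⟩
  have h4 : (⌈a⌉₊ : ℝ) ≤ (max 400 ⌈a⌉₊ : ℕ) := by exact_mod_cast le_max_right _ _
  have h5 : (0:ℝ) ≤ (max 400 ⌈a⌉₊ : ℕ) := Nat.cast_nonneg _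
  have h6 := ha A ((Nat.le_ceil a).trans (h4.trans hA))
  exact ⟨by linarith, h6.1, h6.2⟩

theorem exists_branch (u w0 : List ℕ) : ∃ j0 : ℕ, ∀ i, i ≠ j0 → ¬ i :: u <:+ w0 := by
  by_cases h : ∃ j, j :: u <:+ w0
  · obtain ⟨j, hj⟩ := h
    exact ⟨j, fun i hi h' => hi (Net.cons_suffix_inj h' hj)⟩
  · exact ⟨0, fun i _ h' => h ⟨i, h'⟩⟩

theorem pow_two_thirds (M : ℕ) : (2 / 3 : ℝ) ^ M * (1 + M / 2) ≤ 1 := by
  have h := one_add_mul_le_pow (a := (1/2:ℝ)) (by norm_num) M
  have e : (2 / 3 : ℝ) ^ M * (1 + 1 / 2) ^ M = 1 := by rw [← mul_pow]; norm_num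
  have := mul_le_mul_of_nonneg_left h (by positivity : (0:ℝ) ≤ (2 / 3 : ℝ) ^ M)
  linarith

namespace Net

variable (N : Net)

theorem loc (v : List ℕ) {hh : ℝ} (h0 : 0 ≤ hh) (h1 : hh ≤ N.s v / N.D v) :
    Loc (N.d v) (fun j => N.b (j :: v)) (N.be v) (N.s v) (N.D v) hh :=
  ⟨N.lo v, N.hi v, fun _ => N.b_ge _, fun _ => N.b_le _, rfl, (N.s_bounds v).1, (N.s_bounds v).2,
    rfl, h0, h1⟩

theorem step_p2 {u : List ℕ} (hu : N.Valid u) (hl : u.length < N.n) {A α ζ : ℝ} (hA : Big A)
    (hα0 : A / 10 ≤ α) (hα1 : α ≤ A) (hζ0 : eta A ≤ ζ) (hζ1 : ζ ≤ 25 * eta A) (j0 : ℕ)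
    (hg : ∀ i < N.d u, i ≠ j0 → N.Claim (i :: u) A (eta A))
    (hb : j0 < N.d u → N.Claim (j0 :: u) α ζ) :
    N.Claim u (A - 2 / 3 * (A - α) + 1 / 10) (99 / 100 * ζ) := by
  obtain ⟨hA0, hA1, hA2⟩ := hA
  have hp := eta_pos A
  refine N.step hu hl (fun i => if i = j0 then α else A) (fun _ => ζ)
    (fun i => by split_ifs <;> linarith) (fun _ => by linarith) (fun _ => by linarith) ?_ _ _ ?_
  · intro i hi
    by_cases h : i = j0
    · subst h; simpa using hb hi
    · simp only [if_neg h]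
      exact (hg i hi h).mono N le_rfl hA0 hζ0 (by linarith)
  · intro hh h0 h1 i hi
    refine (N.loc u h0 h1).good (a := fun i => if i = j0 then α else A) hA0
      (fun i => by split_ifs <;> linarith) (fun i => by split_ifs <;> linarith) hζ0 (by linarith)
      (by nlinarith) ?_ hi
    have e1 : ∑ j ∈ range (N.d u), (if j = j0 then α else A) * N.b (j :: u)
        = A * N.be u - (A - α) * ∑ j ∈ range (N.d u), if j = j0 then N.b (j :: u) else 0 := by
      unfold be
      rw [mul_sum, mul_sum, ← sum_sub_distrib]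
      refine sum_congr rfl (fun j _ => ?_)
      split_ifs <;> ring
    have e2 : ∑ j ∈ range (N.d u), (if j = j0 then N.b (j :: u) else 0) ≤ 2 / 3 * N.be u := by
      rw [sum_ite_eq']
      split_ifs with h
      · obtain ⟨k, hk⟩ := (N.loc u h0 h1).other (i := j0)
        have e3 : N.be u = N.b (j0 :: u) + ∑ j ∈ (range (N.d u)).erase j0, N.b (j :: u) := by
          unfold be; rw [add_sum_erase _ (fun j => N.b (j :: u)) h]
        have e4 := single_le_sum (f := fun j => N.b (j :: u))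
          (fun j _ => by linarith [N.b_ge (j :: u)]) hk
        have := N.b_ge (k :: u)
        have := N.b_le (j0 :: u)
        linarith
      · linarith [N.be_ge u]
    rw [e1]
    nlinarith [mul_le_mul_of_nonneg_left e2 (by linarith : 0 ≤ A - α)]

theorem keep {u : List ℕ} (hu : N.Valid u) (hl : u.length < N.n) {A : ℝ} (hA : Big A)
    (hg : ∀ i < N.d u, N.Claim (i :: u) A (eta A)) : N.Claim u A (eta A) := by
  have hp := eta_pos A
  have := N.step_p2 hu hl hA (α := A) (ζ := eta A) (by linarith [hA.1]) le_rfl le_rfl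
    (by linarith) 0 (fun i hi _ => hg i hi) (hg 0)
  exact this.mono N (by linarith) hA.1 (by linarith) (by linarith [hA.2.2])

theorem step_p1 {u : List ℕ} (hu : N.Valid u) (hl : u.length < N.n) {A ε : ℝ} (hA : Big A)
    (hε0 : eta A ≤ ε) (hε1 : ε ≤ 1) (j0 : ℕ)
    (hg : ∀ i < N.d u, i ≠ j0 → N.Claim (i :: u) A (eta A))
    (hb : j0 < N.d u → N.Claim (j0 :: u) (A / 10) ε) :
    N.Claim u (A / 10) (11 / 12 * ε + 2 * eta A) := by
  obtain ⟨hA0, hA1, hA2⟩ := hA
  have hp := eta_pos A
  refine N.step hu hl (fun i => if i = j0 then A / 10 else A) (fun i => if i = j0 then ε else eta A)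
    (fun i => by split_ifs <;> linarith) (fun i => by split_ifs <;> linarith)
    (fun i => by split_ifs <;> linarith) ?_ _ _ ?_
  · intro i hi
    by_cases h : i = j0
    · subst h; simpa using hb hi
    · simp only [if_neg h]
      exact hg i hi h
  · intro hh h0 h1 i _
    exact (N.loc u h0 h1).bad hA0 hε0 hε1 (by unfold eta at hA2; linarith) j0 i

theorem scale {A : ℝ} (hA : Big A) {M : ℕ} (hM1 : 40 * A ≤ M) (hM2 : 400 ≤ M) {v w0 : List ℕ}
    (hv : N.Valid v) (hn : v.length + (2 * M + 1) ≤ N.n)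
    (hg : ∀ w, N.Valid w → v <:+ w → w.length = v.length + (2 * M + 1) → w ≠ w0 →
      N.Claim w A (eta A)) : N.Claim v (A + 1 / 20) (eta (A + 1 / 20)) := by
  have hp := eta_pos A
  have hA0 := hA.1
  have hA2 := hA.2.2
  have pa : ∀ j, ∀ u, N.Valid u → v <:+ u → u.length + j = v.length + (2 * M + 1) → ¬ u <:+ w0 →
      N.Claim u A (eta A) := by
    intro j
    induction j with
    | zero =>
      intro u hu hvu hl hw
      exact hg u hu hvu hl (fun e => hw (e ▸ List.suffix_refl _))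
    | succ j ih =>
      intro u hu hvu hl hw
      refine N.keep hu (by omega) hA (fun i hi => ih _ ⟨hi, hu⟩
        (hvu.trans (List.suffix_cons i u)) (by simp; omega) ?_)
      exact fun h => hw ((List.suffix_cons i u).trans h)
  have p1 : ∀ j, ∀ u, N.Valid u → v <:+ u → u.length + j = v.length + (2 * M + 1) →
      N.Claim u (A / 10) ((11 / 12) ^ j * (1 - 24 * eta A) + 24 * eta A) := by
    intro j
    induction j with
    | zero =>
      intro u hu _ hl
      have := N.claim_one hu (by omega) (A / 10)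
      simpa using this
    | succ j ih =>
      intro u hu hvu hl
      obtain ⟨j0, hj0⟩ := exists_branch u w0
      have q0 : (0:ℝ) ≤ (11 / 12) ^ j := by positivity
      have q1 : (11 / 12 : ℝ) ^ j ≤ 1 := pow_le_one₀ (by norm_num) (by norm_num)
      have := N.step_p1 hu (by omega) hA (ε := (11 / 12) ^ j * (1 - 24 * eta A) + 24 * eta A)
        (by nlinarith) (by nlinarith) j0
        (fun i hi hne => pa j _ ⟨hi, hu⟩ (hvu.trans (List.suffix_cons i u)) (by simp; omega)
          (hj0 i hne))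
        (fun hi => ih _ ⟨hi, hu⟩ (hvu.trans (List.suffix_cons j0 u)) (by simp; omega))
      convert this using 1
      ring
  have hmax : ∀ j : ℕ, eta A ≤ eta A * max 1 (25 * (99 / 100) ^ j) ∧
      eta A * max 1 (25 * (99 / 100) ^ j) ≤ 25 * eta A := by
    intro j
    have q1 : (99 / 100 : ℝ) ^ j ≤ 1 := pow_le_one₀ (by norm_num) (by norm_num)
    have q2 : max 1 (25 * (99 / 100 : ℝ) ^ j) ≤ 25 := max_le (by norm_num) (by linarith)
    have q3 := le_max_left 1 (25 * (99 / 100 : ℝ) ^ j)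
    constructor <;> nlinarith
  have hα : ∀ j : ℕ, A / 10 ≤ A - 9 / 10 * (2 / 3) ^ j * A ∧ A - 9 / 10 * (2 / 3) ^ j * A ≤ A := by
    intro j
    have q0 : (0:ℝ) ≤ (2 / 3) ^ j := by positivity
    have q1 : (2 / 3 : ℝ) ^ j ≤ 1 := pow_le_one₀ (by norm_num) (by norm_num)
    constructor <;> nlinarith
  have p2s : ∀ j, (∀ u, N.Valid u → v <:+ u → u.length + (M + j) = v.length + (2 * M + 1) →
      N.Claim u (A - 9 / 10 * (2 / 3) ^ j * A) (eta A * max 1 (25 * (99 / 100) ^ j))) →
      ∀ u, N.Valid u → v <:+ u → u.length + (M + (j + 1)) = v.length + (2 * M + 1) →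
      N.Claim u (A - 9 / 10 * (2 / 3) ^ (j + 1) * A + 1 / 10)
        (99 / 100 * (eta A * max 1 (25 * (99 / 100) ^ j))) := by
    intro j ih u hu hvu hl
    obtain ⟨j0, hj0⟩ := exists_branch u w0
    have := N.step_p2 hu (by omega) hA (hα j).1 (hα j).2 (hmax j).1 (hmax j).2 j0
      (fun i hi hne => pa (M + j) _ ⟨hi, hu⟩ (hvu.trans (List.suffix_cons i u)) (by simp; omega)
        (hj0 i hne))
      (fun hi => ih _ ⟨hi, hu⟩ (hvu.trans (List.suffix_cons j0 u)) (by simp; omega))
    convert this using 1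
    ring
  have p2 : ∀ j, ∀ u, N.Valid u → v <:+ u → u.length + (M + j) = v.length + (2 * M + 1) →
      N.Claim u (A - 9 / 10 * (2 / 3) ^ j * A) (eta A * max 1 (25 * (99 / 100) ^ j)) := by
    intro j
    induction j with
    | zero =>
      intro u hu hvu hl
      have q0 : (0:ℝ) ≤ (11 / 12) ^ M := by positivity
      have q1 : (11 / 12 : ℝ) ^ M ≤ eta A := by
        have r1 : (11 / 12 : ℝ) ≤ Real.exp (-(1 / 12)) := by
          linarith [Real.add_one_le_exp (-(1 / 12 : ℝ))]
        refine (pow_le_pow_left₀ (by norm_num) r1 M).trans ?_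
        rw [← Real.exp_nat_mul]
        exact Real.exp_le_exp.2 (by linarith)
      refine (p1 M u hu hvu (by omega)).mono N (by simp; linarith) (by simp; linarith) ?_ (by nlinarith)
      rw [pow_zero, mul_one, max_eq_right (by norm_num)]
      nlinarith
    | succ j ih =>
      intro u hu hvu hl
      refine (p2s j ih u hu hvu hl).mono N (by linarith) (by linarith [(hα (j + 1)).1]) ?_
        (by linarith [(hmax j).2])
      have : 99 / 100 * max 1 (25 * (99 / 100 : ℝ) ^ j) ≤ max 1 (25 * (99 / 100) ^ (j + 1)) := by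
        rcases le_total 1 (25 * (99 / 100 : ℝ) ^ j) with h | h
        · rw [max_eq_right h]
          refine le_trans (le_of_eq ?_) (le_max_right _ _)
          ring
        · rw [max_eq_left h]
          exact le_trans (by norm_num) (le_max_left _ _)
      nlinarith
  have fin := p2s M (p2 M) v hv (List.suffix_refl _) (by omega)
  have q1 : 25 * (99 / 100 : ℝ) ^ M ≤ 1 := by
    have r1 : (99 / 100 : ℝ) ^ M ≤ (99 / 100) ^ (200 + 200) :=
      pow_le_pow_of_le_one (by norm_num) (by norm_num) hM2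
    have r2 : (99 / 100 : ℝ) ^ 200 ≤ 1 / 5 := by norm_num
    have r3 : (99 / 100 : ℝ) ^ 200 * (99 / 100) ^ 200 ≤ 1 / 5 * (1 / 5) :=
      mul_le_mul r2 r2 (by positivity) (by norm_num)
    rw [pow_add] at r1
    exact le_trans (mul_le_mul_of_nonneg_left (r1.trans r3) (by norm_num)) (by norm_num)
  rw [max_eq_left q1] at fin
  refine fin.mono N ?_ (by linarith) ?_ (by linarith)
  · have r1 := pow_two_thirds M
    have r0 : (0:ℝ) ≤ (2 / 3) ^ M := by positivity
    have r2 : (2 / 3 : ℝ) ^ M * (20 * A) ≤ (2 / 3) ^ M * (1 + M / 2) :=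
      mul_le_mul_of_nonneg_left (by linarith) r0
    rw [pow_succ]
    nlinarith
  · have r1 : eta (A + 1 / 20) = eta A * Real.exp (-(1 / 4800)) := by
      unfold eta; rw [← Real.exp_add]; congr 1; ring
    have r2 := Real.add_one_le_exp (-(1 / 4800 : ℝ))
    rw [r1]
    nlinarith

end Net

def Good0 (d : List ℕ → ℕ) (L : ℕ) (w : List ℕ) : Prop :=
  ∀ k < L, ∀ t ∈ addr k, d (t ++ w) = 2

namespace Net

variable (N : Net)

theorem split_below {u w : List ℕ} (hu : N.Valid u) (hw : w <:+ u) :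
    ∃ t ∈ addr (u.length - w.length), u = t ++ w := by
  obtain ⟨t, rfl⟩ := hw
  refine ⟨t, mem_addr.2 ⟨by simp, fun x hx => N.valid_lt hu x (by simp [hx])⟩, rfl⟩

theorem good0_d {L : ℕ} {w u : List ℕ} (hg : Good0 N.d L w) (hu : N.Valid u) (hw : w <:+ u)
    (hl : u.length < w.length + L) : N.d u = 2 := by
  obtain ⟨t, ht, e⟩ := N.split_below hu hw
  have := hw.length_le
  rw [e]
  exact hg _ (by omega) t ht

theorem b_bin {L : ℕ} {w : List ℕ} (hg : Good0 N.d L w) (hn : w.length + L ≤ N.n) (k : ℕ) :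
    ∀ u, N.Valid u → w <:+ u → u.length + k ≤ w.length + L → N.b u ≤ 1 / 2 + (1 / 2) ^ (k + 1) := by
  induction k with
  | zero => intro u _ _ _; linarith [N.b_le u]
  | succ k ih =>
    intro u hu hw hl
    have hd := N.good0_d hg hu hw (by omega)
    have h0 := ih (0 :: u) ⟨by omega, hu⟩ (hw.trans (List.suffix_cons _ u)) (by simp; omega)
    have h1 := ih (1 :: u) ⟨by omega, hu⟩ (hw.trans (List.suffix_cons _ u)) (by simp; omega)
    have e : N.be u = N.b (0 :: u) + N.b (1 :: u) := by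
      unfold be; rw [hd, sum_range_succ, sum_range_one]
    have hb := N.be_ge u
    rw [N.b_int (by omega), div_le_iff₀ (by linarith), pow_succ _ (k + 1)]
    have q0 : (0:ℝ) ≤ (1 / 2) ^ (k + 1) := by positivity
    nlinarith

theorem s_bin {L q : ℕ} {w : List ℕ} (hg : Good0 N.d L w) (hn : w.length + L ≤ N.n) (t : List ℕ) :
    N.Valid (t ++ w) → t.length + q ≤ L →
      N.s (t ++ w) ≤ 1 / 2 + (1 / 2) ^ (t.length + 1) + (1 / 2) ^ (q + 1) := by
  have q1 : (0:ℝ) ≤ (1 / 2) ^ (q + 1) := by positivity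
  induction t with
  | nil =>
    intro _ _
    have := (N.s_bounds w).2
    simp only [List.nil_append, List.length_nil]
    linarith
  | cons i t ih =>
    intro hv hl
    simp only [List.length_cons] at hl
    have hu : N.Valid (t ++ w) := hv.2
    have hi : i < N.d (t ++ w) := hv.1
    have hw : w <:+ t ++ w := List.suffix_append _ _
    have hd := N.good0_d hg hu hw (by simp; omega)
    have h0 := N.b_bin hg hn q (0 :: (t ++ w)) ⟨by omega, hu⟩ (hw.trans (List.suffix_cons _ _))
      (by simp; omega)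
    have h1 := N.b_bin hg hn q (1 :: (t ++ w)) ⟨by omega, hu⟩ (hw.trans (List.suffix_cons _ _))
      (by simp; omega)
    have e : N.be (t ++ w) = N.b (0 :: (t ++ w)) + N.b (1 :: (t ++ w)) := by
      unfold be; rw [hd, sum_range_succ, sum_range_one]
    have hX : N.be (t ++ w) - N.b (i :: (t ++ w)) ≤ 1 / 2 + (1 / 2) ^ (q + 1) := by
      rw [hd] at hi
      interval_cases i <;> linarith
    have ih' := ih hu (by omega)
    have hX0 : 0 ≤ N.s (t ++ w) + N.be (t ++ w) - N.b (i :: (t ++ w)) := by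
      linarith [(N.s_bounds (t ++ w)).1, N.be_ge (t ++ w), N.b_le (i :: (t ++ w))]
    have e2 : N.s (i :: t ++ w) = (N.s (t ++ w) + N.be (t ++ w) - N.b (i :: (t ++ w))) /
      (1 + (N.s (t ++ w) + N.be (t ++ w) - N.b (i :: (t ++ w)))) := rfl
    rw [e2, div_le_iff₀ (by linarith), List.length_cons, pow_succ _ (t.length + 1)]
    have q0 : (0:ℝ) ≤ (1 / 2) ^ (t.length + 1) := by positivity
    nlinarith [mul_nonneg q0 hX0, mul_nonneg q1 hX0]

end Net

theorem base {A : ℝ} (hA : Big A) : ∃ L0 : ℕ, ∀ (N : Net) (w : List ℕ), N.Valid w →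
    w.length + L0 ≤ N.n → Good0 N.d L0 w → N.Claim w A (eta A) := by
  have hA0 := hA.1
  set δ := Real.exp (-(2 * A)) / 16 with hδ
  have hδ0 : 0 < δ := by positivity
  obtain ⟨L2, hL2⟩ : ∃ L2 : ℕ, A ≤ L2 * δ := by
    obtain ⟨n, hn⟩ := exists_nat_ge (A / δ)
    exact ⟨n, by rwa [div_le_iff₀ hδ0] at hn⟩
  obtain ⟨q, hq1, hq⟩ : ∃ q : ℕ, 1 ≤ q ∧
      Real.exp (2 * (1 / 2) ^ q * A) ≤ 1 + Real.exp (-(2 * A)) / 8 := by
    have h1 : Filter.Tendsto (fun q : ℕ => Real.exp (2 * (1 / 2 : ℝ) ^ q * A)) Filter.atTop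
        (nhds (Real.exp (2 * 0 * A))) :=
      (Real.continuous_exp.tendsto _).comp
        (((tendsto_pow_atTop_nhds_zero_of_lt_one (by norm_num) (by norm_num)).const_mul 2).mul_const A)
    rw [mul_zero, zero_mul, Real.exp_zero] at h1
    have h2 := h1.eventually (ge_mem_nhds
      (by linarith [Real.exp_pos (-(2 * A))] : (1:ℝ) < 1 + Real.exp (-(2 * A)) / 8))
    obtain ⟨q, h3, h4⟩ := (h2.and (Filter.eventually_ge_atTop 1)).exists
    exact ⟨q, h4, h3⟩
  refine ⟨q + L2 + q, fun N w hw hn hg => ?_⟩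
  have p1 : ∀ j, j ≤ L2 → ∀ u, N.Valid u → w <:+ u → u.length + j = w.length + q + L2 →
      N.Claim u (min A (j * δ)) 0 := by
    intro j
    induction j with
    | zero =>
      intro _ u hu _ hl
      have := N.claim_zero hu (by omega) 0
      simpa [min_eq_right hA0] using this
    | succ j ih =>
      intro hj u hu hwu hl
      have hd := N.good0_d hg hu hwu (by omega)
      have ha0 : 0 ≤ min A (j * δ) := le_min hA0 (by positivity)
      have hs : N.s u ≤ 1 / 2 + (1 / 2) ^ q := by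
        obtain ⟨t, rfl⟩ := hwu
        simp only [List.length_append] at hl
        have h1 := N.s_bin (q := q) hg hn t hu (by omega)
        have h2 : (1 / 2 : ℝ) ^ (t.length + 1) ≤ (1 / 2) ^ (q + 1) :=
          pow_le_pow_of_le_one (by norm_num) (by norm_num) (by omega)
        rw [pow_succ _ q] at h1 h2
        linarith
      have := N.step hu (by omega) (fun _ => min A (j * δ)) (fun _ => 0) (fun _ => ha0)
        (fun _ => le_rfl) (fun _ => zero_le_one)
        (fun i hi => ih (by omega) _ ⟨hi, hu⟩ (hwu.trans (List.suffix_cons i u)) (by simp; omega))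
        (min A (j * δ) + δ) 0
        (fun hh h0 h1 i hi => (N.loc u h0 h1).bin hd ha0 (min_le_left _ _) (by positivity)
          (by simpa using pow_le_pow_of_le_one (by norm_num : (0:ℝ) ≤ 1 / 2) (by norm_num) hq1)
          hq hs hi)
      refine this.mono N ?_ (le_min hA0 (by positivity)) le_rfl zero_le_one
      push_cast
      rcases le_total A (j * δ) with h | h
      · rw [min_eq_left h]; exact (min_le_left _ _).trans (by linarith)
      · rw [min_eq_right h]; exact (min_le_right _ _).trans (by linarith)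
  have p2 : ∀ j, ∀ u, N.Valid u → w <:+ u → u.length + j = w.length + q → N.Claim u A (eta A) := by
    intro j
    induction j with
    | zero =>
      intro u hu hwu hl
      have := p1 L2 le_rfl u hu hwu (by omega)
      rw [min_eq_left hL2] at this
      exact this.mono N le_rfl hA0 (eta_pos A).le zero_le_one
    | succ j ih =>
      intro u hu hwu hl
      exact N.keep hu (by omega) hA (fun i hi => ih _ ⟨hi, hu⟩
        (hwu.trans (List.suffix_cons i u)) (by simp; omega))
  exact p2 q w hw (List.suffix_refl _) rfl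

def mk (N0 k : ℕ) : ℕ := 2 * (40 * N0 + 2 * k) + 1

def Good (d : List ℕ → ℕ) (N0 L0 : ℕ) : ℕ → List ℕ → Prop
  | 0, w => Good0 d L0 w
  | k + 1, w => ∃ t0, ∀ t ∈ addr (mk N0 k), t ≠ t0 → Good d N0 L0 k (t ++ w)

def Ld (N0 L0 : ℕ) : ℕ → ℕ
  | 0 => L0
  | k + 1 => mk N0 k + Ld N0 L0 k

theorem multi : ∃ N0 L0 : ℕ, ∀ (k : ℕ) (N : Net) (w : List ℕ), N.Valid w →
    w.length + Ld N0 L0 k ≤ N.n → Good N.d N0 L0 k w →
    N.Claim w (N0 + k / 20) (eta (N0 + k / 20)) := by
  obtain ⟨N0, hN0, hbig⟩ := exists_big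
  obtain ⟨L0, hL0⟩ := base (hbig N0 le_rfl)
  refine ⟨N0, L0, fun k => ?_⟩
  induction k with
  | zero =>
    intro N w hw hn hg
    simpa using hL0 N w hw hn hg
  | succ k ih =>
    rintro N w hw hn ⟨t0, hg⟩
    have hk : (0:ℝ) ≤ k := Nat.cast_nonneg _
    simp only [Ld, mk] at hn
    have := N.scale (hbig (N0 + k / 20) (by linarith)) (M := 40 * N0 + 2 * k)
      (by push_cast; linarith) (by omega) (w0 := t0 ++ w) hw (by omega) (by
        intro u hu hwu hl hne
        obtain ⟨t, ht, e⟩ := N.split_below hu hwu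
        have e2 : u.length - w.length = mk N0 k := by unfold mk; omega
        rw [e2] at ht
        refine ih N u hu (by omega) ?_
        rw [e]
        exact hg t ht (fun h => hne (by rw [e, h])))
    have e : ((N0:ℝ) + ((k + 1 : ℕ):ℝ) / 20) = N0 + k / 20 + 1 / 20 := by push_cast; ring
    rwa [e]

end Pool.Agent.H582Z.Frog
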