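import Mathlib

set_option autoImplicit false

namespace Pool.Agent.H582Z.Frog

open Finset
open Classical

/-- all addresses of length `k` with entries below five -/
def addr : ℕ → Finset (List ℕ)
  | 0 => {[]}
  | k + 1 => (range 5 ×ˢ addr k).image (fun p => p.1 :: p.2)

theorem mem_addr {k : ℕ} {l : List ℕ} : l ∈ addr k ↔ l.length = k ∧ ∀ x ∈ l, x < 5 := by
  induction k generalizing l with
  | zero =>
    simp only [addr, mem_singleton, List.length_eq_zero_iff]
    constructor
    · rintro rfl; simp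
    · exact fun h => h.1
  | succ k ih =>
    simp only [addr, mem_image, mem_product, mem_range, Prod.exists]
    constructor
    · rintro ⟨a, t, ⟨ha, ht⟩, rfl⟩
      obtain ⟨h1, h2⟩ := ih.1 ht
      refine ⟨by simp [h1], ?_⟩
      intro x hx
      rcases List.mem_cons.1 hx with rfl | hx
      · exact ha
      · exact h2 x hx
    · rintro ⟨h1, h2⟩
      cases l with
      | nil => simp at h1
      | cons a t =>
        refine ⟨a, t, ⟨h2 a (by simp), ih.2 ⟨by simpa using h1, fun x hx => h2 x (by simp [hx])⟩⟩, rfl⟩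

theorem card_addr (k : ℕ) : (addr k).card ≤ 5 ^ k := by
  induction k with
  | zero => simp [addr]
  | succ k ih =>
    refine card_image_le.trans ?_
    rw [card_product, card_range, pow_succ]
    omega

/-- a truncated tree: number of children and depth -/
structure Net where
  d : List ℕ → ℕ
  n : ℕ
  lo : ∀ w, 2 ≤ d w
  hi : ∀ w, d w ≤ 5

namespace Net

variable (N : Net)

def Valid : List ℕ → Prop
  | [] => True
  | i :: v => i < N.d v ∧ Valid v

theorem valid_lt {v : List ℕ} (h : N.Valid v) : ∀ x ∈ v, x < 5 := by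
  induction v with
  | nil => simp
  | cons a t ih =>
    intro x hx
    rcases List.mem_cons.1 hx with rfl | hx
    · exact lt_of_lt_of_le h.1 (N.hi _)
    · exact ih h.2 x hx

theorem valid_suffix {u v : List ℕ} (h : N.Valid v) (huv : u <:+ v) : N.Valid u := by
  induction v with
  | nil => rw [List.suffix_nil.1 huv]; trivial
  | cons a t ih =>
    rcases List.suffix_cons_iff.1 huv with rfl | h'
    · exact h
    · exact ih h.2 h'

noncomputable def L : Finset (List ℕ) := (addr N.n).filter N.Valid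

noncomputable def U : Finset (List ℕ) := ((range (N.n + 1)).biUnion addr).filter N.Valid

theorem mem_L {y : List ℕ} : y ∈ N.L ↔ N.Valid y ∧ y.length = N.n := by
  unfold L
  rw [mem_filter, mem_addr]
  exact ⟨fun h => ⟨h.2, h.1.1⟩, fun h => ⟨⟨h.2, N.valid_lt h.1⟩, h.1⟩⟩

theorem mem_U {y : List ℕ} : y ∈ N.U ↔ N.Valid y ∧ y.length ≤ N.n := by
  unfold U
  rw [mem_filter, mem_biUnion]
  constructor
  · rintro ⟨⟨k, hk, hy⟩, hv⟩
    rw [mem_range] at hk
    have := (mem_addr.1 hy).1
    exact ⟨hv, by omega⟩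
  · rintro ⟨hv, hl⟩
    exact ⟨⟨y.length, mem_range.2 (by omega), mem_addr.2 ⟨rfl, N.valid_lt hv⟩⟩, hv⟩

noncomputable def bk : ℕ → List ℕ → ℝ
  | 0, _ => 1
  | k + 1, v => (∑ i ∈ range (N.d v), bk k (i :: v)) / (1 + ∑ i ∈ range (N.d v), bk k (i :: v))

noncomputable def Hk : ℕ → List ℕ → List ℕ → ℝ
  | 0, v, y => if y = v then 1 else 0
  | k + 1, v, y => ∑ i ∈ range (N.d v),
      N.bk k (i :: v) / (∑ j ∈ range (N.d v), N.bk k (j :: v)) * Hk k (i :: v) y

noncomputable def b (v : List ℕ) : ℝ := N.bk (N.n - v.length) v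

noncomputable def Hd (v y : List ℕ) : ℝ := N.Hk (N.n - v.length) v y

noncomputable def be (v : List ℕ) : ℝ := ∑ i ∈ range (N.d v), N.b (i :: v)

theorem b_leaf {v : List ℕ} (h : N.n ≤ v.length) : N.b v = 1 := by
  unfold b; rw [Nat.sub_eq_zero_of_le h]; rfl

theorem Hd_leaf {v : List ℕ} (h : N.n ≤ v.length) (y : List ℕ) :
    N.Hd v y = if y = v then 1 else 0 := by
  unfold Hd; rw [Nat.sub_eq_zero_of_le h]; rfl

theorem b_int {v : List ℕ} (h : v.length < N.n) : N.b v = N.be v / (1 + N.be v) := by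
  have e : N.n - v.length = (N.n - (v.length + 1)) + 1 := by omega
  unfold b be b
  rw [e]
  simp only [bk, List.length_cons]

theorem Hd_int {v : List ℕ} (h : v.length < N.n) (y : List ℕ) :
    N.Hd v y = ∑ i ∈ range (N.d v), N.b (i :: v) / N.be v * N.Hd (i :: v) y := by
  have e : N.n - v.length = (N.n - (v.length + 1)) + 1 := by omega
  unfold Hd be b
  rw [e]
  simp only [Hk, List.length_cons]

theorem bk_bounds (k : ℕ) (v : List ℕ) : 1 / 2 ≤ N.bk k v ∧ N.bk k v ≤ 1 := by
  induction k generalizing v with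
  | zero => simp [bk]; norm_num
  | succ k ih =>
    have h1 : (1:ℝ) ≤ ∑ i ∈ range (N.d v), N.bk k (i :: v) := by
      have := card_nsmul_le_sum (range (N.d v)) (fun i => N.bk k (i :: v)) (1/2)
        (fun i _ => (ih _).1)
      rw [card_range, nsmul_eq_mul] at this
      have h2 : (2:ℝ) ≤ N.d v := by exact_mod_cast N.lo v
      linarith
    simp only [bk]
    constructor
    · rw [le_div_iff₀ (by linarith)]; linarith
    · rw [div_le_iff₀ (by linarith)]; linarith

theorem b_ge (v : List ℕ) : 1 / 2 ≤ N.b v := (N.bk_bounds _ _).1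
theorem b_le (v : List ℕ) : N.b v ≤ 1 := (N.bk_bounds _ _).2

theorem be_ge (v : List ℕ) : 1 ≤ N.be v := by
  have := card_nsmul_le_sum (range (N.d v)) (fun i => N.b (i :: v)) (1/2) (fun i _ => N.b_ge _)
  rw [card_range, nsmul_eq_mul] at this
  have h2 : (2:ℝ) ≤ N.d v := by exact_mod_cast N.lo v
  unfold be
  linarith

theorem be_le (v : List ℕ) : N.be v ≤ 5 := by
  have := sum_le_card_nsmul (range (N.d v)) (fun i => N.b (i :: v)) 1 (fun i _ => N.b_le _)
  rw [card_range, nsmul_eq_mul] at this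
  have h2 : (N.d v : ℝ) ≤ 5 := by exact_mod_cast N.hi v
  unfold be
  linarith

theorem b_int_le {v : List ℕ} (h : v.length < N.n) : N.b v ≤ 5 / 6 := by
  rw [N.b_int h]
  have := N.be_ge v
  have := N.be_le v
  rw [div_le_iff₀ (by linarith)]; linarith

theorem Hk_nn (k : ℕ) (v y : List ℕ) : 0 ≤ N.Hk k v y := by
  induction k generalizing v with
  | zero => simp only [Hk]; split_ifs <;> norm_num
  | succ k ih =>
    simp only [Hk]
    refine sum_nonneg (fun i _ => mul_nonneg (div_nonneg ?_ (sum_nonneg (fun j _ => ?_))) (ih _))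
    · linarith [(N.bk_bounds k (i :: v)).1]
    · linarith [(N.bk_bounds k (j :: v)).1]

theorem Hd_nn (v y : List ℕ) : 0 ≤ N.Hd v y := N.Hk_nn _ _ _

theorem Hk_supp (k : ℕ) (v y : List ℕ) (h : ¬ v <:+ y) : N.Hk k v y = 0 := by
  induction k generalizing v with
  | zero =>
    simp only [Hk]
    rw [if_neg]
    rintro rfl
    exact h (List.suffix_refl _)
  | succ k ih =>
    simp only [Hk]
    refine sum_eq_zero (fun i _ => ?_)
    rw [ih (i :: v) (fun h' => h ((List.suffix_cons i v).trans h')), mul_zero]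

theorem Hd_supp {v y : List ℕ} (h : ¬ v <:+ y) : N.Hd v y = 0 := N.Hk_supp _ _ _ h

theorem Hd_sum {v : List ℕ} (hv : N.Valid v) (hl : v.length ≤ N.n) :
    ∑ y ∈ N.L, N.Hd v y = 1 := by
  obtain ⟨k, hk⟩ : ∃ k, v.length + k = N.n := ⟨N.n - v.length, by omega⟩
  induction k generalizing v with
  | zero =>
    simp only [N.Hd_leaf (by omega : N.n ≤ v.length)]
    rw [sum_ite_eq']
    rw [if_pos (N.mem_L.2 ⟨hv, by omega⟩)]
  | succ k ih =>
    simp only [N.Hd_int (by omega : v.length < N.n)]
    rw [sum_comm]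
    have : ∀ i ∈ range (N.d v), ∑ y ∈ N.L, N.b (i :: v) / N.be v * N.Hd (i :: v) y
        = N.b (i :: v) / N.be v := by
      intro i hi
      rw [← mul_sum, ih (v := i :: v) ⟨mem_range.1 hi, hv⟩ (by simp; omega) (by simp; omega), mul_one]
    rw [sum_congr rfl this, ← sum_div]
    have := N.be_ge v
    exact div_self (by unfold be at this; linarith)

theorem cons_suffix_inj {i j : ℕ} {v y : List ℕ} (hi : i :: v <:+ y) (hj : j :: v <:+ y) :
    i = j := by
  have h := List.suffix_of_suffix_length_le hi hj (by simp)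
  have := h.eq_of_length (by simp)
  exact (List.cons.inj this).1

theorem Hd_child {v y : List ℕ} {i : ℕ} (h : v.length < N.n) (hi : i < N.d v)
    (hy : i :: v <:+ y) : N.Hd v y = N.b (i :: v) / N.be v * N.Hd (i :: v) y := by
  rw [N.Hd_int h, sum_eq_single i]
  · intro j _ hj
    rw [N.Hd_supp (fun h' => hj (cons_suffix_inj h' hy)), mul_zero]
  · intro h'; exact absurd (mem_range.2 hi) h'

noncomputable def H : List ℕ → List ℕ → ℝ
  | [], y => N.Hd [] y
  | i :: v, y => (1 - N.b (i :: v)) * H v y + N.b (i :: v) * N.Hd (i :: v) y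

theorem H_nn (v y : List ℕ) : 0 ≤ N.H v y := by
  induction v with
  | nil => exact N.Hd_nn _ _
  | cons i v ih =>
    simp only [H]
    have h1 := N.b_ge (i :: v)
    have h2 := N.b_le (i :: v)
    have h3 := N.Hd_nn (i :: v) y
    have : 0 ≤ (1 - N.b (i :: v)) * N.H v y := mul_nonneg (by linarith) ih
    have : 0 ≤ N.b (i :: v) * N.Hd (i :: v) y := mul_nonneg (by linarith) h3
    linarith

theorem H_sum {v : List ℕ} (hv : N.Valid v) (hl : v.length ≤ N.n) :
    ∑ y ∈ N.L, N.H v y = 1 := by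
  induction v with
  | nil => exact N.Hd_sum hv hl
  | cons i v ih =>
    simp only [H]
    rw [sum_add_distrib, ← mul_sum, ← mul_sum, ih hv.2 (by simp at hl; omega), N.Hd_sum hv hl]
    ring

theorem H_leaf {v : List ℕ} (h : N.n ≤ v.length) : N.H v v = 1 := by
  cases v with
  | nil => simp only [H]; rw [N.Hd_leaf h]; simp
  | cons i v => simp only [H]; rw [N.Hd_leaf h, N.b_leaf h]; simp

theorem H_out {i : ℕ} {v y : List ℕ} (h : ¬ i :: v <:+ y) :
    N.H (i :: v) y = (1 - N.b (i :: v)) * N.H v y := by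
  simp only [H]
  rw [N.Hd_supp h]; ring

theorem sum_H_child {v : List ℕ} (h : v.length < N.n) (y : List ℕ) :
    ∑ i ∈ range (N.d v), N.H (i :: v) y = (N.d v - N.be v) * N.H v y + N.be v * N.Hd v y := by
  simp only [H]
  rw [sum_add_distrib, ← sum_mul, sum_sub_distrib, N.Hd_int h, mul_sum]
  have hb := N.be_ge v
  congr 1
  · simp [be]
  · refine sum_congr rfl (fun i _ => ?_)
    field_simp

theorem harm_root (h : 0 < N.n) (y : List ℕ) :
    ∑ i ∈ range (N.d []), N.H [i] y = N.d [] * N.H [] y := by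
  rw [N.sum_H_child (v := []) h]
  simp only [H]; ring

theorem harm_int {j : ℕ} {w : List ℕ} (h : (j :: w).length < N.n) (y : List ℕ) :
    N.H w y + ∑ i ∈ range (N.d (j :: w)), N.H (i :: j :: w) y
      = (N.d (j :: w) + 1) * N.H (j :: w) y := by
  rw [N.sum_H_child h]
  have hb := N.be_ge (j :: w)
  have e : N.H (j :: w) y = (1 - N.b (j :: w)) * N.H w y + N.b (j :: w) * N.Hd (j :: w) y := rfl
  have e2 : (1 + N.be (j :: w)) * N.H (j :: w) y = N.H w y + N.be (j :: w) * N.Hd (j :: w) y := by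
    rw [e, N.b_int h]; field_simp; ring
  linarith

noncomputable def s : List ℕ → ℝ
  | [] => 0
  | i :: v => (s v + N.be v - N.b (i :: v)) / (1 + (s v + N.be v - N.b (i :: v)))

theorem s_bounds (v : List ℕ) : 0 ≤ N.s v ∧ N.s v ≤ 1 := by
  induction v with
  | nil => simp [s]
  | cons i v ih =>
    simp only [s]
    have h1 := N.be_ge v
    have h2 := N.b_le (i :: v)
    have h3 : 0 ≤ N.s v + N.be v - N.b (i :: v) := by linarith [ih.1]
    constructor
    · positivity
    · rw [div_le_iff₀ (by linarith)]; linarith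

noncomputable def D (v : List ℕ) : ℝ := N.s v + N.be v

theorem D_ge (v : List ℕ) : 1 ≤ N.D v := by
  unfold D; linarith [(N.s_bounds v).1, N.be_ge v]

theorem D_le (v : List ℕ) : N.D v ≤ 6 := by
  unfold D; linarith [(N.s_bounds v).2, N.be_le v]

theorem H_below {v y : List ℕ} (hv : N.Valid v) (h : v.length < N.n) (hy : v <:+ y) :
    N.H v y = N.be v / N.D v * N.Hd v y := by
  induction v with
  | nil =>
    have := N.be_ge []
    simp only [H, D, s, zero_add]
    rw [div_self (by linarith), one_mul]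
  | cons i v ih =>
    have h' : v.length < N.n := by simp at h; omega
    have e : N.H (i :: v) y = (1 - N.b (i :: v)) * N.H v y + N.b (i :: v) * N.Hd (i :: v) y := rfl
    rw [e, ih hv.2 h' ((List.suffix_cons i v).trans hy), N.Hd_child h' hv.1 hy]
    have h1 := N.be_ge v
    have h2 := N.be_ge (i :: v)
    have h3 := N.D_ge v
    have h4 := N.b_le (i :: v)
    have h5 := N.b_int h
    have h6 : N.D (i :: v) = (N.D v - N.b (i :: v)) / (1 + (N.D v - N.b (i :: v)))
        + N.be (i :: v) := rfl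
    have h7 := N.D_ge (i :: v)
    have h8 : (1 + (N.D v - N.b (i :: v))) ≠ 0 := by linarith
    have h9 : N.D (i :: v) * (1 + (N.D v - N.b (i :: v))) = N.D v * (1 + N.be (i :: v)) := by
      rw [h6]
      have : N.b (i :: v) * (1 + N.be (i :: v)) = N.be (i :: v) := by
        rw [h5]; field_simp
      field_simp
      nlinarith
    have h10 : N.b (i :: v) * (1 + N.be (i :: v)) = N.be (i :: v) := by
      rw [h5]; field_simp
    have : (1 - N.b (i :: v)) * (N.be v / N.D v * (N.b (i :: v) / N.be v)) + N.b (i :: v)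
        = N.be (i :: v) / N.D (i :: v) := by
      rw [eq_div_iff (by linarith)]
      field_simp
      have : N.b (i :: v) * (N.D (i :: v) * (1 + (N.D v - N.b (i :: v))))
          = N.D v * N.be (i :: v) := by
        rw [h9]; linear_combination (N.D v) * h10
      linear_combination this
    rw [← this]; ring

theorem H_child {v y : List ℕ} {i : ℕ} (hv : N.Valid v) (h : v.length < N.n) (hi : i < N.d v)
    (hy : i :: v <:+ y) : N.H v y = N.b (i :: v) / N.D v * N.Hd (i :: v) y := by
  rw [N.H_below hv h ((List.suffix_cons i v).trans hy), N.Hd_child h hi hy]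
  have := N.be_ge v
  have := N.D_ge v
  field_simp

/-- mass of a predicate on the leaves -/
noncomputable def ms (μ : List ℕ → ℝ) (K : List ℕ → Prop) : ℝ :=
  ∑ y ∈ N.L, if K y then μ y else 0

theorem ms_nn {μ : List ℕ → ℝ} (h : ∀ y, 0 ≤ μ y) (K : List ℕ → Prop) : 0 ≤ N.ms μ K :=
  sum_nonneg (fun y _ => by split_ifs; exacts [h y, le_rfl])

theorem ms_le {μ : List ℕ → ℝ} (h : ∀ y, 0 ≤ μ y) (K : List ℕ → Prop) :
    N.ms μ K ≤ ∑ y ∈ N.L, μ y :=
  sum_le_sum (fun y _ => by split_ifs; exacts [le_rfl, h y])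

theorem ms_out_le {v : List ℕ} (hv : N.Valid v) (h : v.length < N.n) {K : List ℕ → Prop}
    (hK : ∀ y, K y → ¬ v <:+ y) : N.ms (N.H v) K ≤ N.s v / N.D v := by
  have h1 : N.ms (N.H v) K + ∑ y ∈ N.L, N.be v / N.D v * N.Hd v y ≤ ∑ y ∈ N.L, N.H v y := by
    unfold ms
    rw [← sum_add_distrib]
    refine sum_le_sum (fun y _ => ?_)
    by_cases hy : v <:+ y
    · rw [if_neg (fun hk => hK y hk hy), N.H_below hv h hy]; simp
    · rw [N.Hd_supp hy]
      split_ifs
      · simp
      · simpa using N.H_nn v y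
  rw [← mul_sum, N.Hd_sum hv h.le, N.H_sum hv h.le] at h1
  have h2 := N.D_ge v
  have : N.s v / N.D v = 1 - N.be v / N.D v := by
    field_simp
    unfold D; ring
  linarith

theorem ms_union {v : List ℕ} (hv : N.Valid v) (h : v.length < N.n) {K : List ℕ → Prop}
    (hK : ∀ y, K y → ¬ v <:+ y) (J : Finset ℕ) (hJ : ∀ j ∈ J, j < N.d v)
    (Kj : ℕ → List ℕ → Prop) :
    N.ms (N.H v) (fun z => K z ∨ ∃ j ∈ J, j :: v <:+ z ∧ Kj j z)
      = N.ms (N.H v) K + ∑ j ∈ J, N.b (j :: v) / N.D v * N.ms (N.Hd (j :: v)) (Kj j) := by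
  unfold ms
  simp only [mul_sum]
  rw [sum_comm, ← sum_add_distrib]
  refine sum_congr rfl (fun y _ => ?_)
  by_cases hk : K y
  · rw [if_pos (Or.inl hk), if_pos hk, sum_eq_zero, add_zero]
    intro j _
    rw [N.Hd_supp (fun h' => hK y hk ((List.suffix_cons j v).trans h'))]
    simp
  · rw [if_neg hk, zero_add]
    by_cases he : ∃ j ∈ J, j :: v <:+ y
    · obtain ⟨j, hj, hy⟩ := he
      rw [sum_eq_single j]
      · by_cases hkj : Kj j y
        · rw [if_pos (Or.inr ⟨j, hj, hy, hkj⟩), if_pos hkj, N.H_child hv h (hJ j hj) hy]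
        · rw [if_neg hkj, if_neg, mul_zero]
          rintro (h' | ⟨j', _, hy', hk'⟩)
          · exact hk h'
          · rw [cons_suffix_inj hy' hy] at hk'; exact hkj hk'
      · intro j' _ hne
        rw [N.Hd_supp (fun h' => hne (cons_suffix_inj h' hy))]
        simp
      · intro h'; exact absurd hj h'
    · rw [if_neg, sum_eq_zero]
      · intro j hj
        rw [N.Hd_supp (fun h' => he ⟨j, hj, h'⟩)]
        simp
      · rintro (h' | ⟨j', hj', hy', _⟩)
        · exact hk h'
        · exact he ⟨j', hj', hy'⟩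

/-- the current entering the subtree of `v` -/
noncomputable def cur (v : List ℕ) (K : List ℕ → Prop) : ℝ := N.b v * N.ms (N.H v.tail) K

theorem ms_cons {i : ℕ} {v : List ℕ} {K : List ℕ → Prop} (hK : ∀ y, K y → ¬ i :: v <:+ y) :
    N.ms (N.H (i :: v)) K = (1 - N.b (i :: v)) * N.ms (N.H v) K := by
  unfold ms
  rw [mul_sum]
  refine sum_congr rfl (fun y _ => ?_)
  split_ifs with hk
  · exact N.H_out (hK y hk)
  · simp

theorem cur_eq {v : List ℕ} (h : v.length < N.n) {K : List ℕ → Prop}
    (hK : ∀ y, K y → ¬ v <:+ y) : N.cur v K = N.be v * N.ms (N.H v) K := by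
  cases v with
  | nil =>
    have : N.ms (N.H []) K = 0 :=
      sum_eq_zero (fun y _ => if_neg (fun hk => hK y hk List.nil_suffix))
    simp [cur, this]
  | cons i v =>
    rw [N.ms_cons hK]
    unfold cur
    rw [List.tail_cons, N.b_int h]
    have := N.be_ge (i :: v)
    field_simp
    ring

theorem cur_nn (v : List ℕ) (K : List ℕ → Prop) : 0 ≤ N.cur v K :=
  mul_nonneg (by linarith [N.b_ge v]) (N.ms_nn (N.H_nn _) K)

end Net

end Pool.Agent.H582Z.Frog
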