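import Pool.Agent.H582Z.Frog.Step

set_option autoImplicit false

namespace Pool.Agent.H582Z.Frog

open Finset
open Classical

theorem hjj {t Y : ℝ} (h0 : 0 ≤ t) (h1 : t ≤ 1) (hY : 0 ≤ Y) :
    (2 - t) * (Real.exp (Y * t) - 1) ≤ t * (Real.exp Y - 1 / 4) := by
  let F : ℝ → ℝ := fun u => t * Real.exp u - (2 - t) * Real.exp (u * t)
    - t * (Real.exp 1 / 4) * Real.exp (u * (-2))
  have hd : ∀ u, HasDerivAt F (t * Real.exp u - (2 - t) * (Real.exp (u * t) * t)
      - t * (Real.exp 1 / 4) * (Real.exp (u * (-2)) * (-2))) u := by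
    intro u
    have a1 := (Real.hasDerivAt_exp u).const_mul t
    have a2 := ((hasDerivAt_mul_const (x := u) t).exp).const_mul (2 - t)
    have a3 := ((hasDerivAt_mul_const (x := u) (-2:ℝ)).exp).const_mul (t * (Real.exp 1 / 4))
    exact (a1.sub a2).sub a3
  have hm : MonotoneOn F (Set.Ici 0) := by
    refine monotoneOn_of_deriv_nonneg (convex_Ici 0)
      (fun u _ => (hd u).continuousAt.continuousWithinAt)
      (fun u _ => (hd u).differentiableAt.differentiableWithinAt) ?_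
    intro u hu
    rw [interior_Ici] at hu
    have hu0 : 0 < u := hu
    rw [(hd u).deriv]
    have key : (2 - t) * Real.exp (u * t) ≤ Real.exp u + Real.exp 1 / 2 * Real.exp (u * (-2)) := by
      have e1 : Real.exp u = Real.exp (u * t) * Real.exp (u * (1 - t)) := by
        rw [← Real.exp_add]; congr 1; ring
      have e2 := Real.add_one_le_exp (u * (1 - t))
      have e3 := Real.exp_pos (u * t)
      have e4 : (2 - t) * Real.exp (u * t) - Real.exp u ≤ Real.exp (u * t) * ((1 - t) * (1 - u)) := by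
        rw [e1]; nlinarith
      by_cases hu1 : 1 ≤ u
      · have : Real.exp (u * t) * ((1 - t) * (1 - u)) ≤ 0 :=
          mul_nonpos_of_nonneg_of_nonpos e3.le
            (mul_nonpos_of_nonneg_of_nonpos (by linarith) (by linarith))
        have : 0 < Real.exp 1 / 2 * Real.exp (u * (-2)) := by positivity
        linarith
      · push Not at hu1
        have f1 : (1 - t) * Real.exp (u * t) ≤ 1 := by
          have g1 : Real.exp (u * t) ≤ Real.exp t := Real.exp_le_exp.2 (by nlinarith)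
          have g2 := Real.add_one_le_exp (-t)
          have g3 : Real.exp (-t) * Real.exp t = 1 := by rw [← Real.exp_add]; simp
          nlinarith [Real.exp_pos t, mul_le_mul_of_nonneg_left g1 (by linarith : 0 ≤ 1 - t)]
        have f2 : 1 - u ≤ Real.exp 1 / 2 * Real.exp (u * (-2)) := by
          have g1 := Real.add_one_le_exp (1 + u * (-2))
          rw [Real.exp_add] at g1
          linarith
        nlinarith [mul_le_mul_of_nonneg_right f1 (by linarith : 0 ≤ 1 - u)]
    nlinarith [mul_le_mul_of_nonneg_left key h0]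
  have := hm (Set.mem_Ici.2 le_rfl) (Set.mem_Ici.2 hY) hY
  simp only [F, Real.exp_zero, zero_mul, mul_one] at this
  have e3 : Real.exp 1 < 3 := lt_trans Real.exp_one_lt_d9 (by norm_num)
  have e4 : 0 ≤ t * (Real.exp 1 / 4) * Real.exp (Y * (-2)) := by positivity
  nlinarith

theorem prod_le_add {ι : Type} (s : Finset ι) (f e δ : ι → ℝ) (hf0 : ∀ i ∈ s, 0 ≤ f i)
    (hf1 : ∀ i ∈ s, f i ≤ 1) (he0 : ∀ i ∈ s, 0 ≤ e i) (he1 : ∀ i ∈ s, e i ≤ 1)
    (hδ : ∀ i ∈ s, 0 ≤ δ i) (h : ∀ i ∈ s, f i ≤ e i + δ i) :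
    ∏ i ∈ s, f i ≤ ∏ i ∈ s, e i + ∑ i ∈ s, δ i := by
  induction s using Finset.induction_on with
  | empty => simp
  | insert a s ha ih =>
    rw [sum_insert ha, prod_insert ha, prod_insert ha]
    have m := fun i (hi : i ∈ s) => mem_insert_of_mem (b := a) hi
    have ih' := ih (fun i hi => hf0 i (m i hi)) (fun i hi => hf1 i (m i hi))
      (fun i hi => he0 i (m i hi)) (fun i hi => he1 i (m i hi)) (fun i hi => hδ i (m i hi))
      (fun i hi => h i (m i hi))
    have ma := mem_insert_self a s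
    have p0 : 0 ≤ ∏ i ∈ s, e i := prod_nonneg (fun i hi => he0 i (m i hi))
    have p1 : ∏ i ∈ s, e i ≤ 1 := prod_le_one (fun i hi => he0 i (m i hi)) (fun i hi => he1 i (m i hi))
    have s0 : 0 ≤ ∑ i ∈ s, δ i := sum_nonneg (fun i hi => hδ i (m i hi))
    have q1 := mul_le_mul_of_nonneg_left ih' (hf0 a ma)
    have q2 := mul_le_mul_of_nonneg_right (h a ma) p0
    have q3 := mul_le_mul_of_nonneg_right (hf1 a ma) s0
    have q4 := mul_le_mul_of_nonneg_left p1 (hδ a ma)
    nlinarith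

/-- bounds for one factor of the product -/
theorem fac_bounds {η e ρ M ε : ℝ} (hη0 : 0 ≤ η) (hη1 : η ≤ 1) (he0 : 0 ≤ e) (he1 : e ≤ 1)
    (hρ0 : 0 ≤ ρ) (hρ1 : ρ ≤ 1) (hM0 : 0 ≤ M) (hM1 : M ≤ 1) (hε : η + M ≤ ε) :
    0 ≤ 1 - (1 - η) * (1 - e) * (1 - (1 - ρ) * M) ∧ 1 - (1 - η) * (1 - e) * (1 - (1 - ρ) * M) ≤ 1 ∧
      1 - (1 - η) * (1 - e) * (1 - (1 - ρ) * M) ≤ e + ε * (1 - e) := by
  have a0 : 0 ≤ (1 - ρ) * M := mul_nonneg (by linarith) hM0
  have a1 : (1 - ρ) * M ≤ M := by nlinarith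
  have b0 : 0 ≤ (1 - η) * (1 - e) := mul_nonneg (by linarith) (by linarith)
  have b1 : (1 - η) * (1 - e) ≤ 1 := mul_le_one₀ (by linarith) (by linarith) (by linarith)
  refine ⟨?_, ?_, ?_⟩
  · have := mul_le_one₀ b1 (by linarith : 0 ≤ 1 - (1 - ρ) * M) (by linarith)
    linarith
  · have := mul_nonneg b0 (by linarith : 0 ≤ 1 - (1 - ρ) * M)
    linarith
  · have c1 : 1 - ε ≤ (1 - η) * (1 - (1 - ρ) * M) := by nlinarith
    have := mul_le_mul_of_nonneg_right c1 (by linarith : 0 ≤ 1 - e)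
    nlinarith

theorem core1 {η h e ei ek A e0 : ℝ} (hη0 : 0 ≤ η) (hη1 : η ≤ 1 / 2) (hh0 : 0 ≤ h)
    (he0 : 0 ≤ e) (he1 : e ≤ 1) (hei0 : 0 ≤ ei) (hei1 : ei ≤ 1) (hek1 : ek ≤ 1)
    (hA : η * A ≤ e0 / 180)
    (hc : (ei ≤ 1 / 400 ∧ ek ≤ 1 / 400) ∨ (1 - e ≤ 5 * A * h ∧ e0 ≤ e)) :
    η * (1 - 1 / 24 * (1 - ek)) + ((1 - η) * (1 - h) * e + 8 * η * ei * (1 - e))
      ≤ 99 / 100 * η + (1 - 99 / 100 * η) * (e * (1 - h / 2)) := by
  have heh : 0 ≤ e * h := mul_nonneg he0 hh0
  have k1 : η * (e * h) ≤ 1 / 2 * (e * h) := mul_le_mul_of_nonneg_right hη1 heh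
  rcases hc with ⟨h1, h2⟩ | ⟨h1, h2⟩
  · have k2 : ei * (1 - e) ≤ 1 / 400 := by nlinarith
    have k3 := mul_le_mul_of_nonneg_left k2 hη0
    have k4 := mul_le_mul_of_nonneg_left h2 hη0
    have k5 := mul_nonneg hη0 he0
    nlinarith
  · have k2 : ei * (1 - e) ≤ 1 - e := by nlinarith
    have k3 := mul_le_mul_of_nonneg_left k2 hη0
    have k4 := mul_le_mul_of_nonneg_left h1 hη0
    have k5 := mul_le_mul_of_nonneg_right hA hh0
    have k6 := mul_le_mul_of_nonneg_right h2 hh0
    have k7 := mul_le_mul_of_nonneg_left hek1 hη0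
    nlinarith

/-- local data at a vertex -/
structure Loc (d : ℕ) (b : ℕ → ℝ) (β s D h : ℝ) : Prop where
  lo : 2 ≤ d
  hi : d ≤ 5
  b0 : ∀ j, 1 / 2 ≤ b j
  b1 : ∀ j, b j ≤ 1
  hβ : β = ∑ j ∈ range d, b j
  s0 : 0 ≤ s
  s1 : s ≤ 1
  hD : D = s + β
  h0 : 0 ≤ h
  h1 : h ≤ s / D

namespace Loc

variable {d : ℕ} {b : ℕ → ℝ} {β s D h : ℝ} (L : Loc d b β s D h)
include L

theorem β0 : 1 ≤ β := by
  have := card_nsmul_le_sum (range d) b (1/2) (fun i _ => L.b0 _)
  rw [card_range, nsmul_eq_mul] at this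
  have h2 : (2:ℝ) ≤ d := by exact_mod_cast L.lo
  rw [L.hβ]; linarith

theorem β1 : β ≤ 5 := by
  have := sum_le_card_nsmul (range d) b 1 (fun i _ => L.b1 _)
  rw [card_range, nsmul_eq_mul] at this
  have h2 : (d:ℝ) ≤ 5 := by exact_mod_cast L.hi
  rw [L.hβ]; linarith

theorem D0 : 1 ≤ D := by rw [L.hD]; linarith [L.β0, L.s0]
theorem D1 : D ≤ 6 := by rw [L.hD]; linarith [L.β1, L.s1]

theorem hh : h ≤ 1 / 2 := by
  refine L.h1.trans ?_
  rw [div_le_iff₀ (by linarith [L.D0]), L.hD]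
  linarith [L.β0, L.s1]

theorem r0 (j : ℕ) : 1 / 12 ≤ b j / D := by
  rw [le_div_iff₀ (by linarith [L.D0])]
  linarith [L.D1, L.b0 j]

theorem r1 {j : ℕ} (hj : j < d) : b j / D ≤ 1 - h := by
  have h3 : b j ≤ β := by
    rw [L.hβ]
    exact single_le_sum (f := b) (fun i _ => by linarith [L.b0 i]) (mem_range.2 hj)
  have h4 : b j / D + s / D ≤ 1 := by
    rw [← add_div, div_le_one (by linarith [L.D0]), L.hD]; linarith
  linarith [L.h1]

theorem ρ0 (j : ℕ) : 0 ≤ b j / D / (1 - h) :=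
  div_nonneg (by linarith [L.r0 j]) (by linarith [L.hh])

theorem ρ1 {j : ℕ} (hj : j < d) : b j / D / (1 - h) ≤ 1 :=
  (div_le_one (by linarith [L.hh])).2 (L.r1 hj)

theorem M_le {A x : ℝ} (hA : 0 ≤ A) (hx : A / 10 ≤ x) (i j : ℕ) :
    Real.exp (-(x * b i * (b j / D))) ≤ Real.exp (-A / 240) := by
  refine Real.exp_le_exp.2 ?_
  have h1 : A / 10 * (1 / 2) ≤ x * b i :=
    mul_le_mul hx (L.b0 i) (by norm_num) (by linarith)
  have h2 : A / 10 * (1 / 2) * (1 / 12) ≤ x * b i * (b j / D) :=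
    mul_le_mul h1 (L.r0 j) (by norm_num) (by linarith)
  linarith

theorem other {i : ℕ} : ∃ k, k ∈ (range d).erase i := by
  have := L.lo
  by_cases h : i = 0
  · exact ⟨1, by simp; omega⟩
  · exact ⟨0, by simp; omega⟩

theorem good {a : ℕ → ℝ} {A η a' : ℝ} (hA : 0 ≤ A) (ha0 : ∀ j, A / 10 ≤ a j) (ha1 : ∀ j, a j ≤ A)
    (hη0 : Real.exp (-A / 240) ≤ η) (hη1 : η ≤ 1 / 2) (hηA : η * A ≤ Real.exp (-40000) / 180)
    (ha' : a' * β ≤ ∑ j ∈ range d, a j * b j + β / 10) {i : ℕ} (hi : i < d) :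
    Rb ((range d).erase i) h η (a i * b i) (fun j => b j / D)
      (fun j => (1 - η) * (1 - Real.exp (-a j * (b j * h))))
      ≤ 99 / 100 * η + (1 - 99 / 100 * η) * Real.exp (-a' * (β * h)) := by
  have hη : 0 < η := lt_of_lt_of_le (Real.exp_pos _) hη0
  have h0 := L.h0
  have hh := L.hh
  set e : ℕ → ℝ := fun j => Real.exp (-a j * (b j * h)) with he
  have hab0 : ∀ j, A / 20 ≤ a j * b j := fun j => by
    have := mul_le_mul (ha0 j) (L.b0 j) (by norm_num) (by linarith [ha0 j])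
    linarith
  have hab1 : ∀ j, a j * b j ≤ A := fun j => by
    have := mul_le_mul (ha1 j) (L.b1 j) (by linarith [L.b0 j]) hA
    linarith
  have heE : ∀ j, e j ≤ Real.exp (-(A * h) / 20) := fun j =>
    Real.exp_le_exp.2 (by nlinarith [hab0 j])
  have he0 : ∀ j, 0 ≤ e j := fun j => (Real.exp_pos _).le
  have he1 : ∀ j, e j ≤ 1 := fun j =>
    (heE j).trans (Real.exp_le_one_iff.2 (by nlinarith [mul_nonneg hA h0]))
  set u := (∑ j ∈ range d, a j * b j) * h with hu
  have hE : ∏ j ∈ range d, e j = Real.exp (-u) := by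
    rw [he, ← Real.exp_sum, hu, sum_mul, ← sum_neg_distrib]
    congr 1
    exact sum_congr rfl (fun j _ => by ring)
  have hu5 : u ≤ 5 * A * h := by
    have := sum_le_card_nsmul (range d) (fun j => a j * b j) A (fun i _ => hab1 _)
    rw [card_range, nsmul_eq_mul] at this
    have h2 : (d:ℝ) ≤ 5 := by exact_mod_cast L.hi
    have h3 : (d:ℝ) * A ≤ 5 * A := mul_le_mul_of_nonneg_right h2 hA
    exact mul_le_mul_of_nonneg_right (by linarith) h0
  have hu0 : 0 ≤ u := mul_nonneg (sum_nonneg (fun j _ => by linarith [hab0 j])) h0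
  have hE0 : 0 ≤ Real.exp (-u) := (Real.exp_pos _).le
  have hE1 : Real.exp (-u) ≤ 1 := Real.exp_le_one_iff.2 (by linarith)
  have hEe : ∀ j < d, Real.exp (-u) ≤ e j := by
    intro j hj
    refine Real.exp_le_exp.2 ?_
    have := single_le_sum (f := fun j => a j * b j) (s := range d)
      (fun j _ => by linarith [hab0 j]) (mem_range.2 hj)
    have := mul_le_mul_of_nonneg_right this h0
    linarith
  have hsplit : e i * ∏ j ∈ (range d).erase i, e j = Real.exp (-u) := by
    rw [← hE, mul_prod_erase _ _ (mem_range.2 hi)]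
  have hJ : ∀ j ∈ (range d).erase i, j < d := fun j hj => mem_range.1 (mem_of_mem_erase hj)
  have hf := fun j (hj : j ∈ (range d).erase i) =>
    fac_bounds (ε := 2 * η) hη.le (by linarith) (he0 j) (he1 j) (L.ρ0 j) (L.ρ1 (hJ j hj))
      (Real.exp_pos (-(a i * b i * (b j / D)))).le
      ((L.M_le hA (ha0 i) i j).trans (by linarith))
      (by linarith [L.M_le hA (ha0 i) i j])
  have hP := prod_le_add ((range d).erase i) _ e (fun j => 2 * η * (1 - e j))
    (fun j hj => (hf j hj).1) (fun j hj => (hf j hj).2.1) (fun j _ => he0 j) (fun j _ => he1 j)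
    (fun j _ => mul_nonneg (by linarith) (by linarith [he1 j])) (fun j hj => (hf j hj).2.2)
  have hS : ∑ j ∈ (range d).erase i, 2 * η * (1 - e j) ≤ 8 * η * (1 - Real.exp (-u)) := by
    have := sum_le_card_nsmul ((range d).erase i) (fun j => 2 * η * (1 - e j))
      (2 * η * (1 - Real.exp (-u)))
      (fun j hj => mul_le_mul_of_nonneg_left (by linarith [hEe j (hJ j hj)]) (by linarith))
    rw [card_erase_of_mem (mem_range.2 hi), card_range, nsmul_eq_mul] at this
    have h2 : ((d - 1 : ℕ):ℝ) ≤ 4 := by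
      have := L.hi
      exact_mod_cast (by omega : d - 1 ≤ 4)
    have h3 : 0 ≤ 2 * η * (1 - Real.exp (-u)) := mul_nonneg (by linarith) (by linarith)
    nlinarith
  obtain ⟨k, hk⟩ := L.other (i := i)
  have hT : 1 / 24 * (1 - e k) ≤ ∑ j ∈ (range d).erase i, b j / D * ((1 - η) * (1 - e j)) := by
    refine le_trans ?_ (single_le_sum (f := fun j => b j / D * ((1 - η) * (1 - e j)))
      (fun j _ => mul_nonneg (by linarith [L.r0 j])
        (mul_nonneg (by linarith) (by linarith [he1 j]))) hk)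
    have q1 : 1 / 2 * (1 - e k) ≤ (1 - η) * (1 - e k) :=
      mul_le_mul_of_nonneg_right (by linarith) (by linarith [he1 k])
    have q2 := mul_le_mul (L.r0 k) q1 (by linarith [he1 k]) (by linarith [L.r0 k])
    linarith
  have hc := core1 (h := h) (e := Real.exp (-u)) (ei := e i) (ek := e k) (A := A)
    hη.le hη1 h0 hE0 hE1 (he0 i) (he1 i) (he1 k) hηA (by
      by_cases hx : 8000 ≤ A * h
      · left
        have q1 : Real.exp (-(A * h) / 20) ≤ 1 / 400 := by
          have q2 := Real.add_one_le_exp ((A * h) / 20)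
          have q3 : Real.exp (-(A * h) / 20) * Real.exp ((A * h) / 20) = 1 := by
            rw [← Real.exp_add]; ring_nf; simp
          nlinarith [Real.exp_pos (-(A * h) / 20)]
        exact ⟨(heE i).trans q1, (heE k).trans q1⟩
      · right
        push Not at hx
        exact ⟨by linarith [Real.add_one_le_exp (-u)], Real.exp_le_exp.2 (by linarith)⟩)
  have hG : Real.exp (-u) * (1 - h / 2) ≤ Real.exp (-a' * (β * h)) := by
    have q1 : -u + -(h / 2) ≤ -a' * (β * h) := by
      have := mul_le_mul_of_nonneg_right ha' h0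
      have := mul_le_mul_of_nonneg_right L.β1 h0
      nlinarith
    have q2 := Real.exp_le_exp.2 q1
    rw [Real.exp_add] at q2
    have q3 := Real.add_one_le_exp (-(h / 2))
    nlinarith
  have hG' := mul_le_mul_of_nonneg_left hG (by linarith : 0 ≤ 1 - 99 / 100 * η)
  refine le_trans ?_ (hc.trans (by linarith))
  unfold Rb
  have e1 : Real.exp (-(a i * b i) * h) = e i := by rw [he]; congr 1; ring
  rw [e1]
  refine add_le_add (mul_le_mul_of_nonneg_left (by linarith) hη.le) ?_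
  have q1 := mul_le_mul_of_nonneg_left (hP.trans (add_le_add le_rfl hS)) (he0 i)
  rw [mul_add, hsplit] at q1
  have q2 : 0 ≤ (1 - η) * (1 - h) := mul_nonneg (by linarith) (by linarith)
  have q3 : (1 - η) * (1 - h) ≤ 1 := mul_le_one₀ (by linarith) (by linarith) (by linarith)
  have q4 := mul_le_mul_of_nonneg_left q1 q2
  have q5 : 0 ≤ e i * (8 * η * (1 - Real.exp (-u))) :=
    mul_nonneg (he0 i) (mul_nonneg (by linarith) (by linarith))
  have q6 := mul_le_mul_of_nonneg_right q3 q5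
  nlinarith

theorem bad {A ε : ℝ} (hA : 0 ≤ A) (hε0 : Real.exp (-A / 240) ≤ ε) (hε1 : ε ≤ 1)
    (hη : Real.exp (-A / 240) ≤ 1 / 24) (j0 i : ℕ) :
    Rb ((range d).erase i) h (if i = j0 then ε else Real.exp (-A / 240))
      ((if i = j0 then A / 10 else A) * b i) (fun j => b j / D)
      (fun j => (1 - (if j = j0 then ε else Real.exp (-A / 240))) *
        (1 - Real.exp (-(if j = j0 then A / 10 else A) * (b j * h))))
      ≤ (11 / 12 * ε + 2 * Real.exp (-A / 240)) + (1 - (11 / 12 * ε + 2 * Real.exp (-A / 240))) *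
        Real.exp (-(A / 10) * (β * h)) := by
  set η := Real.exp (-A / 240) with hηd
  have hη0 : 0 < η := Real.exp_pos _
  have h0 := L.h0
  have hh := L.hh
  set a : ℕ → ℝ := fun j => if j = j0 then A / 10 else A with ha
  set ηf : ℕ → ℝ := fun j => if j = j0 then ε else η with hηf
  have ha0 : ∀ j, A / 10 ≤ a j := fun j => by simp only [ha]; split_ifs <;> linarith
  have hηf0 : ∀ j, 0 ≤ ηf j := fun j => by simp only [hηf]; split_ifs <;> linarith
  have hηf1 : ∀ j, ηf j ≤ 1 := fun j => by simp only [hηf]; split_ifs <;> linarith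
  set e : ℕ → ℝ := fun j => Real.exp (-a j * (b j * h)) with he
  have he0 : ∀ j, 0 ≤ e j := fun j => (Real.exp_pos _).le
  have he1 : ∀ j, e j ≤ 1 := fun j => Real.exp_le_one_iff.2 (by
    have := mul_nonneg (by linarith [ha0 j] : 0 ≤ a j) (mul_nonneg (by linarith [L.b0 j] : 0 ≤ b j) h0)
    linarith)
  set E := Real.exp (-(A * h) / 2) with hE
  have hE0 : 0 ≤ E := (Real.exp_pos _).le
  have hE1 : E ≤ 1 := Real.exp_le_one_iff.2 (by linarith [mul_nonneg hA h0])
  have heE : ∀ j, j ≠ j0 → e j ≤ E := fun j hj => Real.exp_le_exp.2 (by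
    simp only [ha, if_neg hj]
    have := mul_le_mul_of_nonneg_left (L.b0 j) (mul_nonneg hA h0)
    linarith)
  have hG : E ≤ Real.exp (-(A / 10) * (β * h)) := Real.exp_le_exp.2 (by
    have := mul_le_mul_of_nonneg_left L.β1 (mul_nonneg hA h0)
    linarith)
  have hG' := mul_le_mul_of_nonneg_left hG (by linarith : 0 ≤ 1 - (11 / 12 * ε + 2 * η))
  have hJ : ∀ j ∈ (range d).erase i, j < d := fun j hj => mem_range.1 (mem_of_mem_erase hj)
  have hf := fun j (hj : j ∈ (range d).erase i) =>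
    fac_bounds (ε := ηf j + η) (hηf0 j) (hηf1 j) (he0 j) (he1 j) (L.ρ0 j) (L.ρ1 (hJ j hj))
      (Real.exp_pos (-(a i * b i * (b j / D)))).le
      ((L.M_le hA (ha0 i) i j).trans (by linarith))
      (by linarith [L.M_le hA (ha0 i) i j])
  have hT0 : ∀ j ∈ (range d).erase i, 0 ≤ b j / D * ((1 - ηf j) * (1 - e j)) := fun j _ =>
    mul_nonneg (by linarith [L.r0 j]) (mul_nonneg (by linarith [hηf1 j]) (by linarith [he1 j]))
  have e1 : Real.exp (-(a i * b i) * h) = e i := by rw [he]; congr 1; ring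
  change Rb _ h (ηf i) (a i * b i) _ (fun j => (1 - ηf j) * (1 - e j)) ≤ _
  unfold Rb
  rw [e1]
  have hP0 := prod_nonneg (fun j hj => (hf j hj).1)
  by_cases hij : i = j0
  · obtain ⟨k, hk⟩ := L.other (i := i)
    have hkj : k ≠ j0 := hij ▸ (mem_erase.1 hk).1
    have hηk : ηf k = η := if_neg hkj
    have hηi : ηf i = ε := if_pos hij
    have hP : ∏ j ∈ (range d).erase i, (1 - (1 - ηf j) * (1 - e j) *
        (1 - (1 - b j / D / (1 - h)) * Real.exp (-(a i * b i * (b j / D)))))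
        ≤ e k + (ηf k + η) * (1 - e k) := by
      rw [← mul_prod_erase _ _ hk]
      refine le_trans ?_ (hf k hk).2.2
      exact mul_le_of_le_one_right (hf k hk).1
        (prod_le_one (fun j hj => (hf j (mem_of_mem_erase hj)).1)
          (fun j hj => (hf j (mem_of_mem_erase hj)).2.1))
    have hT := single_le_sum hT0 hk
    rw [hηk] at hP hT
    rw [hηi]
    have q1 : 1 / 12 * ((1 - η) * (1 - E)) ≤ b k / D * ((1 - η) * (1 - e k)) :=
      mul_le_mul (L.r0 k) (mul_le_mul_of_nonneg_left (by linarith [heE k hkj]) (by linarith))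
        (mul_nonneg (by linarith) (by linarith)) (by linarith [L.r0 k])
    have q2 : e k + (η + η) * (1 - e k) ≤ E + 2 * η * (1 - E) := by nlinarith [heE k hkj]
    have q3 : (1 - h) * e i ≤ 1 := mul_le_one₀ (by linarith) (he0 i) (he1 i)
    have q4 := (mul_le_of_le_one_left hP0 q3).trans (hP.trans q2)
    have q5 := mul_le_mul_of_nonneg_left q4 (by linarith : 0 ≤ 1 - ε)
    have q6 := mul_le_mul_of_nonneg_left (q1.trans hT) (by linarith : 0 ≤ ε)
    have q7 : 0 ≤ ε * h := mul_nonneg (by linarith) h0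
    have q8 : 0 ≤ ε * η * (1 - E) := mul_nonneg (mul_nonneg (by linarith) hη0.le) (by linarith)
    nlinarith
  · have hηi : ηf i = η := if_neg hij
    rw [hηi]
    have hP1 := prod_le_one (fun j hj => (hf j hj).1) (fun j hj => (hf j hj).2.1)
    have hT := sum_nonneg hT0
    have q3 : (1 - h) * e i ≤ E := by nlinarith [heE i hij, he0 i]
    have q4 := (mul_le_of_le_one_right (mul_nonneg (by linarith : 0 ≤ 1 - h) (he0 i)) hP1).trans q3
    have q5 := mul_le_mul_of_nonneg_left q4 (by linarith : 0 ≤ 1 - η)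
    have q6 := mul_nonneg hη0.le hT
    have q7 : 0 ≤ η * h := mul_nonneg hη0.le h0
    have q8 : 0 ≤ (11 / 12 * ε + η) * (1 - E) := mul_nonneg (by linarith) (by linarith)
    nlinarith

theorem bin {a A θ : ℝ} (hd : d = 2) (ha0 : 0 ≤ a) (ha1 : a ≤ A) (hθ0 : 0 ≤ θ) (hθ1 : θ ≤ 1 / 2)
    (hθ : Real.exp (2 * θ * A) ≤ 1 + Real.exp (-(2 * A)) / 8) (hs : s ≤ 1 / 2 + θ)
    {i : ℕ} (hi : i < d) :
    Rb ((range d).erase i) h 0 (a * b i) (fun j => b j / D)
      (fun j => (1 - 0) * (1 - Real.exp (-a * (b j * h))))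
      ≤ 0 + (1 - 0) * Real.exp (-(a + Real.exp (-(2 * A)) / 16) * (β * h)) := by
  have h0 := L.h0
  have hh := L.hh
  have hD0 := L.D0
  obtain ⟨k, hk, hβ⟩ : ∃ k, (range d).erase i = {k} ∧ β = b i + b k := by
    have hβ := L.hβ
    subst hd
    rw [sum_range_succ, sum_range_one] at hβ
    interval_cases i
    · exact ⟨1, by decide, hβ⟩
    · exact ⟨0, by decide, by linarith⟩
  set c := Real.exp (-(2 * A)) / 4 with hc
  have hc0 : 0 < c := by positivity
  have hc1 : c ≤ 1 / 4 := by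
    have : Real.exp (-(2 * A)) ≤ 1 := Real.exp_le_one_iff.2 (by linarith)
    rw [hc]; linarith
  unfold Rb
  rw [hk, prod_singleton]
  simp only [zero_mul, sub_zero, one_mul, zero_add]
  set ρ := b i / D * (1 + 2 * θ) with hρ
  have hri0 := L.r0 i
  have hri1 : b i / D ≤ 1 := by linarith [L.r1 hi]
  have hρ0 : 0 < ρ := mul_pos (by linarith) (by linarith)
  have hρ1 : b i / D ≤ ρ := by nlinarith
  have hρ2 : ρ ≤ 2 := by nlinarith
  have hσ : s / D ≤ ρ := by
    rw [hρ, div_mul_eq_mul_div]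
    refine div_le_div_of_nonneg_right ?_ (by linarith)
    nlinarith [L.b0 i]
  have hsum : b i / D + b k / D + s / D = 1 := by
    rw [← add_div, ← add_div, div_eq_one_iff_eq (by linarith), L.hD, hβ]; ring
  set y := a * b k with hy
  have hy0 : 0 ≤ y := mul_nonneg ha0 (by linarith [L.b0 k])
  have hy1 : y ≤ A := by nlinarith [L.b1 k]
  have ht1 : h / ρ ≤ 1 := (div_le_one hρ0).2 (L.h1.trans hσ)
  have H := hjj (t := h / ρ) (Y := y * ρ) (div_nonneg h0 hρ0.le) ht1 (mul_nonneg hy0 hρ0.le)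
  have e1 : y * ρ * (h / ρ) = y * h := by field_simp
  rw [e1] at H
  have H2 : (2 * ρ - h) * (Real.exp (y * h) - 1) ≤ h * (Real.exp (y * ρ) - 1 / 4) := by
    have := mul_le_mul_of_nonneg_left H hρ0.le
    have e2 : ρ * ((2 - h / ρ) * (Real.exp (y * h) - 1)) = (2 * ρ - h) * (Real.exp (y * h) - 1) := by
      field_simp
    have e3 : ρ * (h / ρ * (Real.exp (y * ρ) - 1 / 4)) = h * (Real.exp (y * ρ) - 1 / 4) := by
      field_simp
    rwa [e2, e3] at this
  set M := Real.exp (-(a * b i * (b k / D))) with hM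
  have hM0 : 0 < M := Real.exp_pos _
  have hM1 : M * Real.exp (y * ρ) ≤ 1 + c / 2 := by
    rw [hM, ← Real.exp_add]
    refine le_trans (Real.exp_le_exp.2 ?_) (hθ.trans (by rw [hc]; linarith))
    have e2 : -(a * b i * (b k / D)) + y * ρ = 2 * θ * (y * (b i / D)) := by
      rw [hy, hρ]; ring
    rw [e2]
    refine mul_le_mul_of_nonneg_left ?_ (by linarith)
    nlinarith
  have hM2 : c ≤ M / 4 := by
    rw [hc, hM]
    refine div_le_div_of_nonneg_right (Real.exp_le_exp.2 ?_) (by norm_num)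
    have e2 : a * b i * (b k / D) = y * (b i / D) := by rw [hy]; ring
    rw [e2]; nlinarith
  have hX1 : 1 ≤ Real.exp (y * h) := Real.one_le_exp (mul_nonneg hy0 h0)
  have H3 : (1 - h - b k / D) * M * (Real.exp (y * h) - 1) ≤ h * (1 - c / 2) := by
    have q1 : (1 - h - b k / D) * (Real.exp (y * h) - 1) ≤ (2 * ρ - h) * (Real.exp (y * h) - 1) :=
      mul_le_mul_of_nonneg_right (by linarith) (by linarith)
    have q2 := mul_le_mul_of_nonneg_left (q1.trans H2) hM0.le
    have q3 := mul_le_mul_of_nonneg_left hM1 h0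
    have q4 := mul_le_mul_of_nonneg_left hM2 h0
    nlinarith
  set ek := Real.exp (-a * (b k * h)) with hek
  set ei := Real.exp (-(a * b i) * h) with hei
  have hek0 : 0 < ek := Real.exp_pos _
  have hei0 : 0 < ei := Real.exp_pos _
  have hekX : ek * Real.exp (y * h) = 1 := by
    rw [hek, ← Real.exp_add, hy]; ring_nf; simp
  have hG : ei * ek * (1 - c / 2 * h) ≤ Real.exp (-(a + Real.exp (-(2 * A)) / 16) * (β * h)) := by
    have q0 : β ≤ 2 := by linarith [L.b1 i, L.b1 k]
    have q1 : -(a * b i) * h + -a * (b k * h) + -(c / 2 * h)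
        ≤ -(a + Real.exp (-(2 * A)) / 16) * (β * h) := by
      have e2 : Real.exp (-(2 * A)) / 16 = c / 4 := by rw [hc]; ring
      rw [e2]
      have := mul_le_mul_of_nonneg_left q0 (mul_nonneg hc0.le h0)
      have e3 : a * (β * h) = a * b i * h + a * (b k * h) := by rw [hβ]; ring
      nlinarith
    have q2 := Real.exp_le_exp.2 q1
    rw [Real.exp_add, Real.exp_add] at q2
    have q3 := Real.add_one_le_exp (-(c / 2 * h))
    have := mul_le_mul_of_nonneg_left q3 (mul_pos hei0 hek0).le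
    linarith
  refine le_trans ?_ hG
  have e4 : (1 - h) * ei * (1 - (1 - ek) * (1 - (1 - b k / D / (1 - h)) * M))
      = ei * ek * ((1 - h) + (1 - h - b k / D) * M * (Real.exp (y * h) - 1)) := by
    have : (1 - h) ≠ 0 := by linarith
    have e5 : (1 - h) * (1 - b k / D / (1 - h)) = 1 - h - b k / D := by field_simp
    have e6 : ek * (Real.exp (y * h) - 1) = 1 - ek := by linarith
    calc _ = ei * ((1 - h) * ek + (1 - ek) * ((1 - h) * (1 - b k / D / (1 - h))) * M) := by ring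
      _ = ei * ((1 - h) * ek + (ek * (Real.exp (y * h) - 1)) * (1 - h - b k / D) * M) := by
          rw [e5, e6]
      _ = _ := by ring
  rw [e4]
  exact mul_le_mul_of_nonneg_left (by linarith) (mul_pos hei0 hek0).le

end Loc

end Pool.Agent.H582Z.Frog
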