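import Pool.Agent.H582Z.Frog.Ex
import Pool.Agent.H582Z.Frog.Net

set_option autoImplicit false

namespace Pool.Agent.H582Z.Frog

open Finset
open Classical

/-- frogs of the subtree of `v` woken by a frog running down to `l` -/
inductive Aw (v : List ℕ) (y : List ℕ → List ℕ) (l : List ℕ) : List ℕ → Prop
  | base (u : List ℕ) : v <:+ u → u <:+ l → Aw v y l u
  | step (u w : List ℕ) : Aw v y l u → v <:+ w → w <:+ y u → ¬ w <:+ u → Aw v y l w

theorem Aw.sub {v : List ℕ} {y : List ℕ → List ℕ} {l u : List ℕ} (h : Aw v y l u) : v <:+ u := by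
  cases h with
  | base _ h _ => exact h
  | step _ _ _ h _ _ => exact h

theorem Aw.congr {v : List ℕ} {y y' : List ℕ → List ℕ} {l u : List ℕ}
    (hy : ∀ u, v <:+ u → y u = y' u) (h : Aw v y l u) : Aw v y' l u := by
  induction h with
  | base u h1 h2 => exact Aw.base u h1 h2
  | step u w h1 h2 h3 h4 ih => exact Aw.step u w ih h2 (hy u h1.sub ▸ h3) h4

def Avoid (v : List ℕ) (y : List ℕ → List ℕ) (K : List ℕ → Prop) (l : List ℕ) : Prop :=
  ∀ u, Aw v y l u → ¬ K (y u)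

theorem avoid_congr {v : List ℕ} {y y' : List ℕ → List ℕ}
    (hy : ∀ u, v <:+ u → y u = y' u) (K : List ℕ → Prop) : Avoid v y K = Avoid v y' K := by
  funext l
  apply propext
  constructor
  · intro h u hu
    rw [← hy u hu.sub]
    exact h u (hu.congr (fun u hu => (hy u hu).symm))
  · intro h u hu
    rw [hy u hu.sub]
    exact h u (hu.congr hy)

theorem Aw.up {v : List ℕ} {i : ℕ} {y : List ℕ → List ℕ} {l u : List ℕ}
    (h : Aw (i :: v) y l u) : Aw v y l u := by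
  induction h with
  | base u h1 h2 => exact Aw.base u ((List.suffix_cons i v).trans h1) h2
  | step u w _ h2 h3 h4 ih => exact Aw.step u w ih ((List.suffix_cons i v).trans h2) h3 h4

theorem Aw.side {v : List ℕ} {j : ℕ} {y : List ℕ → List ℕ} {l u w : List ℕ}
    (hu : Aw v y l u) (hj : ¬ j :: v <:+ u) (h : Aw (j :: v) y (y u) w) : Aw v y l w := by
  induction h with
  | base w h1 h2 =>
    exact Aw.step u w hu ((List.suffix_cons j v).trans h1) h2 (fun h' => hj (h1.trans h'))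
  | step w w' _ h2 h3 h4 ih => exact Aw.step w w' ih ((List.suffix_cons j v).trans h2) h3 h4

/-- enlarged forbidden set -/
def Kp (v : List ℕ) (J : Finset ℕ) (K : List ℕ → Prop) (y : List ℕ → List ℕ) : List ℕ → Prop :=
  fun z => K z ∨ ∃ j ∈ J, j :: v <:+ z ∧ ¬ Avoid (j :: v) y K z

theorem step_pt {v : List ℕ} {i : ℕ} {J : Finset ℕ} (hJ : i ∉ J) {K : List ℕ → Prop}
    {y : List ℕ → List ℕ} {l : List ℕ} (hl : i :: v <:+ l) (h : Avoid v y K l) :
    ¬ Kp v J K y (y v) ∧ Avoid (i :: v) y (Kp v J K y) l := by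
  have key : ∀ u, Aw v y l u → (∀ j ∈ J, ¬ j :: v <:+ u) → ¬ Kp v J K y (y u) := by
    rintro u hu hj (hk | ⟨j, hjJ, _, h2⟩)
    · exact h u hu hk
    · exact h2 (fun w hw => h w (hu.side (hj j hjJ) hw))
  constructor
  · refine key v (Aw.base v (List.suffix_refl _) ((List.suffix_cons i v).trans hl)) ?_
    intro j _ h'
    have := h'.length_le
    simp at this
  · intro u hu
    refine key u hu.up (fun j hj h' => ?_)
    exact hJ (Net.cons_suffix_inj h' hu.sub ▸ hj)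

theorem one_sub_sum_le_prod {ι : Type} (s : Finset ι) (x : ι → ℝ) (h0 : ∀ i ∈ s, 0 ≤ x i)
    (h1 : ∀ i ∈ s, x i ≤ 1) : 1 - ∑ i ∈ s, x i ≤ ∏ i ∈ s, (1 - x i) := by
  induction s using Finset.induction_on with
  | empty => simp
  | insert a s ha ih =>
    rw [sum_insert ha, prod_insert ha]
    have ih' := ih (fun i hi => h0 i (mem_insert_of_mem hi)) (fun i hi => h1 i (mem_insert_of_mem hi))
    have ha0 := h0 a (mem_insert_self _ _)
    have ha1 := h1 a (mem_insert_self _ _)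
    have hs : 0 ≤ ∑ i ∈ s, x i := sum_nonneg (fun i hi => h0 i (mem_insert_of_mem hi))
    nlinarith [mul_le_mul_of_nonneg_left ih' (by linarith : 0 ≤ 1 - x a), mul_nonneg ha0 hs]

theorem exp_chord {m t : ℝ} (h0 : 0 ≤ t) (h1 : t ≤ 1) :
    Real.exp (m * t) ≤ 1 - t + t * Real.exp m := by
  have := convexOn_exp.2 (Set.mem_univ 0) (Set.mem_univ m) (by linarith : 0 ≤ 1 - t) h0 (by ring)
  simp only [smul_eq_mul, mul_zero, zero_add, Real.exp_zero, mul_one] at this
  rwa [mul_comm m t]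

theorem factor_le {ρ μ θ : ℝ} (hρ0 : 0 ≤ ρ) (hρ1 : ρ ≤ 1) (hμ : 0 ≤ μ) (h0 : 0 ≤ θ) (h1 : θ ≤ 1) :
    (1 - ρ * θ) * Real.exp (-μ * θ) ≤ 1 - θ * (1 - (1 - ρ) * Real.exp (-μ)) := by
  have h2 := exp_chord (m := -μ) h0 h1
  have h3 : Real.exp (-μ) ≤ 1 := Real.exp_le_one_iff.2 (by linarith)
  have h4 : 0 ≤ 1 - ρ * θ := by nlinarith
  have h5 := mul_le_mul_of_nonneg_left h2 h4
  have h6 : 0 ≤ ρ * θ * ((1 - θ) * (1 - Real.exp (-μ))) :=
    mul_nonneg (mul_nonneg hρ0 h0) (mul_nonneg (by linarith) (by linarith))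
  nlinarith

noncomputable def Rb (J : Finset ℕ) (h η lam : ℝ) (r γ : ℕ → ℝ) : ℝ :=
  η * (1 - h - ∑ j ∈ J, r j * γ j) + (1 - η) * ((1 - h) * Real.exp (-lam * h) *
    ∏ j ∈ J, (1 - γ j * (1 - (1 - r j / (1 - h)) * Real.exp (-(lam * r j)))))

theorem pt_bound (J : Finset ℕ) {h lam : ℝ} (r θ : ℕ → ℝ) (hh : h < 1) (hlam : 0 ≤ lam)
    (hr0 : ∀ j ∈ J, 0 ≤ r j) (hr1 : ∀ j ∈ J, r j ≤ 1 - h)
    (h0 : ∀ j ∈ J, 0 ≤ θ j) (h1 : ∀ j ∈ J, θ j ≤ 1) :
    (1 - (h + ∑ j ∈ J, r j * θ j)) * Real.exp (-lam * (h + ∑ j ∈ J, r j * θ j))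
      ≤ (1 - h) * Real.exp (-lam * h) *
        ∏ j ∈ J, (1 - θ j * (1 - (1 - r j / (1 - h)) * Real.exp (-(lam * r j)))) := by
  have hp : 0 < 1 - h := by linarith
  have hρ0 : ∀ j ∈ J, 0 ≤ r j / (1 - h) := fun j hj => div_nonneg (hr0 j hj) hp.le
  have hρ1 : ∀ j ∈ J, r j / (1 - h) ≤ 1 := fun j hj => (div_le_one hp).2 (hr1 j hj)
  have e1 : 1 - (h + ∑ j ∈ J, r j * θ j) = (1 - h) * (1 - ∑ j ∈ J, r j / (1 - h) * θ j) := by
    rw [mul_sub, mul_sum]
    have : ∀ j ∈ J, (1 - h) * (r j / (1 - h) * θ j) = r j * θ j := fun j _ => by field_simp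
    rw [sum_congr rfl this]; ring
  have e2 : Real.exp (-lam * (h + ∑ j ∈ J, r j * θ j))
      = Real.exp (-lam * h) * ∏ j ∈ J, Real.exp (-(lam * r j) * θ j) := by
    rw [← Real.exp_sum, ← Real.exp_add, mul_add, mul_sum]
    congr 2
    exact sum_congr rfl (fun j _ => by ring)
  have e3 := one_sub_sum_le_prod J (fun j => r j / (1 - h) * θ j)
    (fun j hj => mul_nonneg (hρ0 j hj) (h0 j hj))
    (fun j hj => mul_le_one₀ (hρ1 j hj) (h0 j hj) (h1 j hj))
  have e4 : (∏ j ∈ J, (1 - r j / (1 - h) * θ j)) * ∏ j ∈ J, Real.exp (-(lam * r j) * θ j)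
      ≤ ∏ j ∈ J, (1 - θ j * (1 - (1 - r j / (1 - h)) * Real.exp (-(lam * r j)))) := by
    rw [← prod_mul_distrib]
    refine prod_le_prod (fun j hj => ?_) (fun j hj => ?_)
    · refine mul_nonneg ?_ (Real.exp_pos _).le
      have := mul_le_one₀ (hρ1 j hj) (h0 j hj) (h1 j hj)
      linarith
    · exact factor_le (hρ0 j hj) (hρ1 j hj) (mul_nonneg hlam (hr0 j hj)) (h0 j hj) (h1 j hj)
  have e5 : 0 ≤ ∏ j ∈ J, Real.exp (-(lam * r j) * θ j) := prod_nonneg (fun j _ => (Real.exp_pos _).le)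
  have e6 := (mul_le_mul_of_nonneg_right e3 e5).trans e4
  rw [e1, e2]
  have e7 : 0 ≤ (1 - h) * Real.exp (-lam * h) := mul_nonneg hp.le (Real.exp_pos _).le
  calc _ = (1 - h) * Real.exp (-lam * h) * ((1 - ∑ j ∈ J, r j / (1 - h) * θ j) *
        ∏ j ∈ J, Real.exp (-(lam * r j) * θ j)) := by ring
    _ ≤ _ := mul_le_mul_of_nonneg_left e6 e7

namespace Net

variable (N : Net)

theorem valid_rep (k : ℕ) : N.Valid (List.replicate k 0) := by
  induction k with
  | zero => trivial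
  | succ k ih => exact ⟨lt_of_lt_of_le (by norm_num) (N.lo _), ih⟩

noncomputable def PMH : PM (List ℕ) (List ℕ) where
  U := N.U
  B := N.L
  mu := N.H
  t0 := List.replicate N.n 0
  nn := N.H_nn
  sum1 := fun _ hu => N.H_sum (N.mem_U.1 hu).1 (N.mem_U.1 hu).2
  t0mem := N.mem_L.2 ⟨N.valid_rep _, by simp⟩

noncomputable def PA (v : List ℕ) (K : List ℕ → Prop) : ℝ :=
  N.PMH.E (fun y => N.ms (N.Hd v) (Avoid v y K))

def Claim (v : List ℕ) (a η : ℝ) : Prop :=
  ∀ K : List ℕ → Prop, (∀ y, K y → ¬ v <:+ y) →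
    N.PA v K ≤ η + (1 - η) * Real.exp (-a * N.cur v K)

theorem ms_not {μ : List ℕ → ℝ} (K : List ℕ → Prop) :
    N.ms μ (fun z => ¬ K z) = ∑ y ∈ N.L, μ y - N.ms μ K := by
  unfold ms
  rw [← sum_sub_distrib]
  refine sum_congr rfl (fun y _ => ?_)
  by_cases h : K y <;> simp [h]

theorem Claim.mono {v : List ℕ} {a η a' η' : ℝ} (h : N.Claim v a η) (ha : a' ≤ a) (ha0 : 0 ≤ a')
    (hη : η ≤ η') (hη1 : η ≤ 1) : N.Claim v a' η' := by
  intro K hK
  refine (h K hK).trans ?_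
  have h1 : Real.exp (-a * N.cur v K) ≤ Real.exp (-a' * N.cur v K) :=
    Real.exp_le_exp.2 (by nlinarith [N.cur_nn v K])
  have h2 : Real.exp (-a' * N.cur v K) ≤ 1 :=
    Real.exp_le_one_iff.2 (by nlinarith [N.cur_nn v K])
  nlinarith [mul_le_mul_of_nonneg_left h1 (by linarith : 0 ≤ 1 - η)]

theorem PA_le_one {v : List ℕ} (hv : N.Valid v) (hl : v.length ≤ N.n) (K : List ℕ → Prop) :
    N.PA v K ≤ 1 :=
  N.PMH.E_le (fun _ => (N.ms_le (N.Hd_nn v) _).trans (N.Hd_sum hv hl).le)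

theorem claim_zero {v : List ℕ} (hv : N.Valid v) (hl : v.length ≤ N.n) (η : ℝ) :
    N.Claim v 0 η := by
  intro K _
  have := N.PA_le_one hv hl K
  simp only [neg_zero, zero_mul, Real.exp_zero]
  linarith

theorem claim_one {v : List ℕ} (hv : N.Valid v) (hl : v.length ≤ N.n) (a : ℝ) :
    N.Claim v a 1 := by
  intro K _
  have := N.PA_le_one hv hl K
  linarith

theorem ms_Hd_int {v : List ℕ} (h : v.length < N.n) (K : List ℕ → Prop) :
    N.ms (N.Hd v) K = ∑ i ∈ range (N.d v), N.b (i :: v) / N.be v * N.ms (N.Hd (i :: v)) K := by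
  unfold ms
  simp only [mul_sum]
  rw [sum_comm]
  refine sum_congr rfl (fun y _ => ?_)
  split_ifs
  · exact N.Hd_int h y
  · simp

theorem avg_le {v : List ℕ} (f : ℕ → ℝ) (t : ℝ) (h : ∀ i < N.d v, f i ≤ t) :
    ∑ i ∈ range (N.d v), N.b (i :: v) / N.be v * f i ≤ t := by
  have hb := N.be_ge v
  calc _ ≤ ∑ i ∈ range (N.d v), N.b (i :: v) / N.be v * t :=
        sum_le_sum (fun i hi => mul_le_mul_of_nonneg_left (h i (mem_range.1 hi))
          (div_nonneg (by linarith [N.b_ge (i :: v)]) (by linarith)))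
    _ = t := by
        rw [← sum_mul, ← sum_div]
        change N.be v / N.be v * t = t
        rw [div_self (by linarith), one_mul]

theorem r_le {v : List ℕ} (hv : N.Valid v) (h : v.length < N.n) {K : List ℕ → Prop}
    (hK : ∀ y, K y → ¬ v <:+ y) {j : ℕ} (hj : j < N.d v) :
    N.b (j :: v) / N.D v ≤ 1 - N.ms (N.H v) K := by
  have h1 := N.ms_out_le hv h hK
  have h2 := N.D_ge v
  have h3 : N.b (j :: v) ≤ N.be v :=
    single_le_sum (f := fun i => N.b (i :: v)) (fun i _ => by linarith [N.b_ge (i :: v)])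
      (mem_range.2 hj)
  have h4 : N.b (j :: v) / N.D v + N.s v / N.D v ≤ 1 := by
    rw [← add_div, div_le_one (by linarith)]
    unfold D; linarith
  linarith

theorem h_lt {v : List ℕ} (hv : N.Valid v) (h : v.length < N.n) {K : List ℕ → Prop}
    (hK : ∀ y, K y → ¬ v <:+ y) : N.ms (N.H v) K ≤ 1 / 2 := by
  have h1 := N.ms_out_le hv h hK
  have h2 := N.D_ge v
  have h4 : N.s v / N.D v ≤ 1 / 2 := by
    rw [div_le_iff₀ (by linarith)]
    unfold D; linarith [N.be_ge v, (N.s_bounds v).2]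
  linarith

theorem step_child {v : List ℕ} (hv : N.Valid v) (h : v.length < N.n) {K : List ℕ → Prop}
    (hK : ∀ y, K y → ¬ v <:+ y) (a η : ℕ → ℝ) (ha : ∀ i, 0 ≤ a i) (hη0 : ∀ i, 0 ≤ η i)
    (hη1 : ∀ i, η i ≤ 1) (hc : ∀ i < N.d v, N.Claim (i :: v) (a i) (η i))
    {i : ℕ} (hi : i < N.d v) :
    N.PMH.E (fun y => N.ms (N.Hd (i :: v)) (Avoid v y K)) ≤
      Rb ((range (N.d v)).erase i) (N.ms (N.H v) K) (η i) (a i * N.b (i :: v))
        (fun j => N.b (j :: v) / N.D v)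
        (fun j => (1 - η j) * (1 - Real.exp (-a j * (N.b (j :: v) * N.ms (N.H v) K)))) := by
  set J := (range (N.d v)).erase i with hJ
  set hh := N.ms (N.H v) K with hhh
  have hJd : ∀ j ∈ J, j < N.d v := fun j hj => mem_range.1 (mem_of_mem_erase hj)
  have hiJ : i ∉ J := notMem_erase _ _
  have hvc : ∀ j < N.d v, N.Valid (j :: v) := fun j hj => ⟨hj, hv⟩
  have hlc : ∀ j : ℕ, (j :: v).length ≤ N.n := fun j => by simp; omega
  let G : (List ℕ → List ℕ) → (List ℕ → List ℕ) → ℝ := fun y y' =>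
    (if ¬ Kp v J K y' (y v) then 1 else 0) * N.ms (N.Hd (i :: v)) (Avoid (i :: v) y (Kp v J K y'))
  have s1 : N.PMH.E (fun y => N.ms (N.Hd (i :: v)) (Avoid v y K)) ≤ N.PMH.E (fun y => G y y) := by
    refine N.PMH.E_mono (fun y => ?_)
    simp only [G]
    unfold ms
    rw [mul_sum]
    refine sum_le_sum (fun l _ => ?_)
    have hn := N.Hd_nn (i :: v) l
    by_cases hl : i :: v <:+ l
    · by_cases hA : Avoid v y K l
      · obtain ⟨h1, h2⟩ := step_pt hiJ hl hA
        rw [if_pos hA, if_pos h1, if_pos h2, one_mul]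
      · rw [if_neg hA]
        split_ifs <;> simp [hn]
    · rw [N.Hd_supp hl]; simp
  let S : Set (List ℕ) := {u | u = v ∨ i :: v <:+ u}
  have s2 : N.PMH.E (fun y => G y y) = N.PMH.E (fun y' => N.PMH.E (fun y => G y y')) := by
    refine N.PMH.freeze G S ?_ ?_
    · intro y' y1 y2 hy
      simp only [G]
      rw [hy v (Or.inl rfl), avoid_congr (fun u hu => hy u (Or.inr hu))]
    · intro y y1 y2 hy
      have : Kp v J K y1 = Kp v J K y2 := by
        funext z
        unfold Kp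
        congr 1
        apply propext
        refine exists_congr (fun j => and_congr_right (fun hj => ?_))
        rw [avoid_congr (v := j :: v) (y := y1) (y' := y2)]
        intro u hu
        refine hy u ?_
        rintro (rfl | h')
        · have := hu.length_le
          simp at this
        · exact hiJ (cons_suffix_inj hu h' ▸ hj)
      simp only [G, this]
  let θ : ℕ → (List ℕ → List ℕ) → ℝ := fun j y => N.ms (N.Hd (j :: v)) (fun z => ¬ Avoid (j :: v) y K z)
  have hθ0 : ∀ j y, 0 ≤ θ j y := fun j y => N.ms_nn (N.Hd_nn _) _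
  have hθ1 : ∀ j < N.d v, ∀ y, θ j y ≤ 1 := fun j hj y =>
    (N.ms_le (N.Hd_nn _) _).trans (N.Hd_sum (hvc j hj) (hlc j)).le
  have hms : ∀ y', N.ms (N.H v) (Kp v J K y') = hh + ∑ j ∈ J, N.b (j :: v) / N.D v * θ j y' :=
    fun y' => N.ms_union hv h hK J hJd (fun j z => ¬ Avoid (j :: v) y' K z)
  have hh1 : hh < 1 := by linarith [N.h_lt hv h hK]
  have hr0 : ∀ j, 0 ≤ N.b (j :: v) / N.D v := fun j =>
    div_nonneg (by linarith [N.b_ge (j :: v)]) (by linarith [N.D_ge v])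
  have hlam : 0 ≤ a i * N.b (i :: v) := mul_nonneg (ha i) (by linarith [N.b_ge (i :: v)])
  have s3 : ∀ y', N.PMH.E (fun y => G y y') ≤
      η i * (1 - hh - ∑ j ∈ J, N.b (j :: v) / N.D v * θ j y') + (1 - η i) *
        ((1 - hh) * Real.exp (-(a i * N.b (i :: v)) * hh) * ∏ j ∈ J, (1 - θ j y' *
          (1 - (1 - N.b (j :: v) / N.D v / (1 - hh)) *
            Real.exp (-(a i * N.b (i :: v) * (N.b (j :: v) / N.D v)))))) := by
    intro y'
    have e1 : N.PMH.E (fun y => G y y') = N.PMH.E (fun y => if ¬ Kp v J K y' (y v) then 1 else 0)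
        * N.PA (i :: v) (Kp v J K y') := by
      refine N.PMH.E_mul {v} ?_ ?_
      · intro y1 y2 hy; simp only [hy v rfl]
      · intro y1 y2 hy
        simp only
        rw [avoid_congr (y := y1) (y' := y2)]
        intro u hu
        refine hy u ?_
        rintro rfl
        have := hu.length_le
        simp at this
    have e2 : N.PMH.E (fun y => if ¬ Kp v J K y' (y v) then 1 else 0)
        = 1 - N.ms (N.H v) (Kp v J K y') := by
      have e0 := N.ms_not (μ := N.H v) (Kp v J K y')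
      rw [N.H_sum hv h.le] at e0
      rw [N.PMH.E_single (N.mem_U.2 ⟨hv, h.le⟩) (fun t => if ¬ Kp v J K y' t then 1 else 0), ← e0]
      refine sum_congr rfl (fun t _ => ?_)
      change N.H v t * _ = _
      by_cases hq : Kp v J K y' t <;> simp [hq]
    have e3 := hc i hi (Kp v J K y') (by
      rintro z (hz | ⟨j, hj, hz, _⟩) h'
      · exact hK z hz ((List.suffix_cons i v).trans h')
      · exact hiJ (cons_suffix_inj hz h' ▸ hj))
    have e4 : 0 ≤ 1 - N.ms (N.H v) (Kp v J K y') := by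
      have := (N.ms_le (N.H_nn v) (Kp v J K y')).trans (N.H_sum hv h.le).le
      linarith
    rw [e1, e2]
    refine (mul_le_mul_of_nonneg_left e3 e4).trans ?_
    have e5 : N.cur (i :: v) (Kp v J K y') = N.b (i :: v) * N.ms (N.H v) (Kp v J K y') := rfl
    rw [e5, hms]
    have e6 := pt_bound J (h := hh) (lam := a i * N.b (i :: v)) (fun j => N.b (j :: v) / N.D v)
      (fun j => θ j y') hh1 hlam (fun j _ => hr0 j) (fun j hj => N.r_le hv h hK (hJd j hj))
      (fun j _ => hθ0 j y') (fun j hj => hθ1 j (hJd j hj) y')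
    have e7 := mul_le_mul_of_nonneg_left e6 (by linarith [hη1 i] : 0 ≤ 1 - η i)
    have e8 : -a i * (N.b (i :: v) * (hh + ∑ j ∈ J, N.b (j :: v) / N.D v * θ j y'))
        = -(a i * N.b (i :: v)) * (hh + ∑ j ∈ J, N.b (j :: v) / N.D v * θ j y') := by ring
    rw [e8]
    linarith
  have hEθ : ∀ j < N.d v, (1 - η j) * (1 - Real.exp (-a j * (N.b (j :: v) * hh))) ≤ N.PMH.E (θ j) := by
    intro j hj
    have e1 : N.PMH.E (θ j) = 1 - N.PA (j :: v) K := by
      have : θ j = fun y => 1 - N.ms (N.Hd (j :: v)) (Avoid (j :: v) y K) := by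
        funext y
        simp only [θ]
        rw [N.ms_not, N.Hd_sum (hvc j hj) (hlc j)]
      rw [this, N.PMH.E_sub, N.PMH.E_const]; rfl
    have e2 := hc j hj K (fun z hz h' => hK z hz ((List.suffix_cons j v).trans h'))
    have e3 : N.cur (j :: v) K = N.b (j :: v) * hh := rfl
    rw [e3] at e2
    rw [e1]; linarith
  have hEθ1 : ∀ j < N.d v, N.PMH.E (θ j) ≤ 1 := fun j hj => N.PMH.E_le (hθ1 j hj)
  refine s1.trans (s2.le.trans ((N.PMH.E_mono s3).trans ?_))
  rw [N.PMH.E_add, N.PMH.E_smul, N.PMH.E_smul, N.PMH.E_smul, N.PMH.E_sub, N.PMH.E_const,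
    N.PMH.E_sum, N.PMH.E_prod J _ (fun j => {u | j :: v <:+ u})]
  · unfold Rb
    refine add_le_add (mul_le_mul_of_nonneg_left ?_ (hη0 i))
      (mul_le_mul_of_nonneg_left (mul_le_mul_of_nonneg_left ?_ ?_) (by linarith [hη1 i]))
    · have : ∑ j ∈ J, N.b (j :: v) / N.D v * ((1 - η j) *
          (1 - Real.exp (-a j * (N.b (j :: v) * hh))))
          ≤ ∑ j ∈ J, N.PMH.E (fun y => N.b (j :: v) / N.D v * θ j y) := by
        refine sum_le_sum (fun j hj => ?_)
        rw [N.PMH.E_smul]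
        exact mul_le_mul_of_nonneg_left (hEθ j (hJd j hj)) (hr0 j)
      linarith
    · have hN : ∀ j ∈ J, 0 ≤ (1 - N.b (j :: v) / N.D v / (1 - hh)) *
            Real.exp (-(a i * N.b (i :: v) * (N.b (j :: v) / N.D v))) ∧
          (1 - N.b (j :: v) / N.D v / (1 - hh)) *
            Real.exp (-(a i * N.b (i :: v) * (N.b (j :: v) / N.D v))) ≤ 1 := by
        intro j hj
        have q1 : N.b (j :: v) / N.D v / (1 - hh) ≤ 1 :=
          (div_le_one (by linarith)).2 (N.r_le hv h hK (hJd j hj))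
        have q2 : 0 ≤ N.b (j :: v) / N.D v / (1 - hh) := div_nonneg (hr0 j) (by linarith)
        have q3 : Real.exp (-(a i * N.b (i :: v) * (N.b (j :: v) / N.D v))) ≤ 1 :=
          Real.exp_le_one_iff.2 (by linarith [mul_nonneg hlam (hr0 j)])
        exact ⟨mul_nonneg (by linarith) (Real.exp_pos _).le,
          mul_le_one₀ (by linarith) (Real.exp_pos _).le q3⟩
      have hE : ∀ j ∈ J, N.PMH.E (fun y => 1 - θ j y * (1 - (1 - N.b (j :: v) / N.D v / (1 - hh)) *
            Real.exp (-(a i * N.b (i :: v) * (N.b (j :: v) / N.D v)))))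
          = 1 - N.PMH.E (θ j) * (1 - (1 - N.b (j :: v) / N.D v / (1 - hh)) *
            Real.exp (-(a i * N.b (i :: v) * (N.b (j :: v) / N.D v)))) := by
        intro j _
        rw [N.PMH.E_sub, N.PMH.E_const, mul_comm (N.PMH.E (θ j)), ← N.PMH.E_smul]
        congr 2
        funext y; ring
      rw [prod_congr rfl hE]
      refine prod_le_prod (fun j hj => ?_) (fun j hj => ?_)
      · have q1 := hN j hj
        have q2 := hEθ1 j (hJd j hj)
        have q3 : 0 ≤ N.PMH.E (θ j) := N.PMH.E_nonneg (hθ0 j)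
        nlinarith [q1.1, q1.2]
      · have q1 := hN j hj
        have q2 := hEθ j (hJd j hj)
        nlinarith [q1.1, q1.2]
    · exact mul_nonneg (by linarith) (Real.exp_pos _).le
  · intro j _ y1 y2 hy
    simp only [θ]
    rw [avoid_congr (y := y1) (y' := y2) hy]
  · intro j _ j' _ hne
    rw [Set.disjoint_left]
    intro u h1 h2
    exact hne (cons_suffix_inj h1 h2)

theorem step {v : List ℕ} (hv : N.Valid v) (h : v.length < N.n)
    (a η : ℕ → ℝ) (ha : ∀ i, 0 ≤ a i) (hη0 : ∀ i, 0 ≤ η i)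
    (hη1 : ∀ i, η i ≤ 1) (hc : ∀ i < N.d v, N.Claim (i :: v) (a i) (η i)) (a' η' : ℝ)
    (hR : ∀ hh : ℝ, 0 ≤ hh → hh ≤ N.s v / N.D v → ∀ i < N.d v,
      Rb ((range (N.d v)).erase i) hh (η i) (a i * N.b (i :: v))
        (fun j => N.b (j :: v) / N.D v)
        (fun j => (1 - η j) * (1 - Real.exp (-a j * (N.b (j :: v) * hh))))
      ≤ η' + (1 - η') * Real.exp (-a' * (N.be v * hh))) :
    N.Claim v a' η' := by
  intro K hK
  rw [N.cur_eq h hK]
  unfold PA
  simp only [N.ms_Hd_int h]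
  rw [N.PMH.E_sum]
  simp only [N.PMH.E_smul]
  refine N.avg_le _ _ (fun i hi => ?_)
  exact (N.step_child hv h hK a η ha hη0 hη1 hc hi).trans
    (hR _ (N.ms_nn (N.H_nn v) K) (N.ms_out_le hv h hK) i hi)

end Net

end Pool.Agent.H582Z.Frog
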