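import Pool.Agent.H582Z.Frog.Multi

set_option autoImplicit false

namespace Pool.Agent.H582Z.Frog

open Finset
open Classical

noncomputable def muZ (p : ℝ) (i : List ℕ × ℕ) (r : ℕ) : ℝ :=
  if i.2 = 0 then (if r = 0 then p else if r = 1 then 1 - p else 0) else 1 / 30

noncomputable def PMZ {p : ℝ} (h0 : 0 ≤ p) (h1 : p ≤ 1) (I : Finset (List ℕ × ℕ)) :
    PM (List ℕ × ℕ) ℕ where
  U := I
  B := range 30
  mu := muZ p
  t0 := 0
  nn := fun i r => by unfold muZ; split_ifs <;> linarith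
  sum1 := fun i _ => by
    unfold muZ
    by_cases h : i.2 = 0
    · simp [h, sum_range_succ]
    · simp [h]
  t0mem := by simp

def tree (z : List ℕ × ℕ → ℕ) (w : List ℕ) : ℕ := if z (w, 0) = 0 then 2 else 5

theorem tree_cases (z : List ℕ × ℕ → ℕ) (w : List ℕ) : tree z w = 2 ∨ tree z w = 5 := by
  unfold tree; split_ifs <;> simp

def netOf (z : List ℕ × ℕ → ℕ) (n : ℕ) : Net where
  d := tree z
  n := n
  lo := fun w => by rcases tree_cases z w with h | h <;> omega
  hi := fun w => by rcases tree_cases z w with h | h <;> omega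

theorem good_congr {d d' : List ℕ → ℕ} (N0 L0 k : ℕ) : ∀ w : List ℕ,
    (∀ u, w <:+ u → d u = d' u) → (Good d N0 L0 k w ↔ Good d' N0 L0 k w) := by
  induction k with
  | zero =>
    intro w h
    simp only [Good, Good0]
    refine forall_congr' (fun k => forall_congr' (fun _ => forall_congr' (fun t =>
      forall_congr' (fun _ => ?_))))
    rw [h _ (List.suffix_append t w)]
  | succ k ih =>
    intro w h
    simp only [Good]
    refine exists_congr (fun t0 => forall_congr' (fun t => forall_congr' (fun _ =>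
      forall_congr' (fun _ => ?_))))
    exact ih _ (fun u hu => h u ((List.suffix_append t w).trans hu))

noncomputable def badG (N0 L0 k : ℕ) (w : List ℕ) (z : List ℕ × ℕ → ℕ) : ℝ :=
  if Good (tree z) N0 L0 k w then 0 else 1

theorem badG_nn (N0 L0 k : ℕ) (w : List ℕ) (z : List ℕ × ℕ → ℕ) : 0 ≤ badG N0 L0 k w z := by
  unfold badG; split_ifs <;> norm_num

theorem badG_dep (N0 L0 k : ℕ) (w : List ℕ) : Dep (badG N0 L0 k w) {i | w <:+ i.1} := by
  intro z z' h
  unfold badG
  rw [good_congr (d := tree z) (d' := tree z') N0 L0 k w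
    (fun u hu => by unfold tree; rw [h (u, 0) hu])]

noncomputable def epsk (N0 k : ℕ) : ℝ := (1 / 25) ^ (mk N0 k + 5) * (1 / 2) ^ k

theorem bad_prob {p : ℝ} (h0 : 0 ≤ p) (h1 : p ≤ 1) (I : Finset (List ℕ × ℕ)) (N0 L0 : ℕ)
    (hp : (∑ k ∈ range L0, (5:ℝ) ^ k) * (1 - p) ≤ epsk N0 0) (k : ℕ) :
    ∀ w, (PMZ h0 h1 I).E (badG N0 L0 k w) ≤ epsk N0 k := by
  set M := PMZ h0 h1 I with hM
  induction k with
  | zero =>
    intro w
    have a1 : ∀ u : List ℕ, M.E (fun z => if z (u, 0) = 0 then 0 else 1) ≤ 1 - p := by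
      intro u
      by_cases hu : (u, 0) ∈ M.U
      · rw [M.E_single hu (fun r => if r = 0 then 0 else 1)]
        change ∑ t ∈ range 30, muZ p (u, 0) t * _ ≤ _
        simp [muZ, sum_range_succ]
      · refine le_trans (M.E_mono' (G := fun _ => 0) (fun z _ hz => ?_)) ?_
        · rw [hz _ hu]
          change (if (0:ℕ) = 0 then (0:ℝ) else 1) ≤ 0
          simp
        · rw [M.E_const]; linarith
    have a2 : M.E (badG N0 L0 0 w) ≤ M.E (fun z => ∑ k ∈ range L0, ∑ t ∈ addr k,
        if z (t ++ w, 0) = 0 then 0 else 1) := by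
      refine M.E_mono (fun z => ?_)
      have nn : ∀ k ∈ range L0, ∀ t ∈ addr k, (0:ℝ) ≤ if z (t ++ w, 0) = 0 then 0 else 1 :=
        fun _ _ _ _ => by split_ifs <;> norm_num
      unfold badG
      split_ifs with hg
      · exact sum_nonneg (fun k hk => sum_nonneg (nn k hk))
      · simp only [Good, Good0, not_forall] at hg
        obtain ⟨k, hk, t, ht, hne⟩ := hg
        refine le_trans ?_ (single_le_sum (fun k hk => sum_nonneg (nn k hk)) (mem_range.2 hk))
        refine le_trans ?_ (single_le_sum (nn k (mem_range.2 hk)) ht)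
        rw [if_neg]
        intro h; exact hne (by unfold tree; rw [if_pos h])
    refine a2.trans (le_trans ?_ hp)
    rw [M.E_sum, sum_mul]
    refine sum_le_sum (fun k _ => ?_)
    rw [M.E_sum]
    refine (sum_le_card_nsmul _ _ _ (fun t _ => a1 _)).trans ?_
    rw [nsmul_eq_mul]
    refine mul_le_mul_of_nonneg_right ?_ (by linarith)
    exact_mod_cast card_addr k
  | succ k ih =>
    intro w
    have a2 : M.E (badG N0 L0 (k + 1) w) ≤ M.E (fun z => ∑ t ∈ addr (mk N0 k),
        ∑ t' ∈ (addr (mk N0 k)).erase t, badG N0 L0 k (t ++ w) z * badG N0 L0 k (t' ++ w) z) := by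
      refine M.E_mono (fun z => ?_)
      have nn : ∀ t t', 0 ≤ badG N0 L0 k (t ++ w) z * badG N0 L0 k (t' ++ w) z :=
        fun _ _ => mul_nonneg (badG_nn _ _ _ _ _) (badG_nn _ _ _ _ _)
      by_cases hg : Good (tree z) N0 L0 (k + 1) w
      · have : badG N0 L0 (k + 1) w z = 0 := if_pos hg
        rw [this]
        exact sum_nonneg (fun t _ => sum_nonneg (fun t' _ => nn t t'))
      · have : badG N0 L0 (k + 1) w z = 1 := if_neg hg
        rw [this]
        simp only [Good, not_exists, not_forall] at hg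
        obtain ⟨t, ht, _, hb⟩ := hg []
        obtain ⟨t', ht', hne, hb'⟩ := hg t
        refine le_trans ?_ (single_le_sum (fun t _ => sum_nonneg (fun t' _ => nn t t')) ht)
        refine le_trans ?_ (single_le_sum (fun t' _ => nn t t') (mem_erase.2 ⟨hne, ht'⟩))
        unfold badG
        rw [if_neg hb, if_neg hb']; norm_num
    have e0 : 0 ≤ epsk N0 k := by unfold epsk; positivity
    have a3 : ∀ t ∈ addr (mk N0 k), ∀ t' ∈ (addr (mk N0 k)).erase t,
        M.E (fun z => badG N0 L0 k (t ++ w) z * badG N0 L0 k (t' ++ w) z) ≤ epsk N0 k * epsk N0 k := by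
      intro t ht t' ht'
      rw [M.E_mul _ (badG_dep N0 L0 k (t ++ w)) ((badG_dep N0 L0 k (t' ++ w)).mono ?_)]
      · exact mul_le_mul (ih _) (ih _) (M.E_nonneg (badG_nn _ _ _ _)) e0
      · intro i hi hi'
        have l1 := (mem_addr.1 ht).1
        have l2 := (mem_addr.1 (mem_of_mem_erase ht')).1
        have h := List.suffix_of_suffix_length_le hi hi' (by simp [l1, l2])
        have := h.eq_of_length (by simp [l1, l2])
        exact (mem_erase.1 ht').1 (List.append_cancel_right this)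
    refine a2.trans ?_
    rw [M.E_sum]
    have c1 : ((addr (mk N0 k)).card : ℝ) ≤ 5 ^ mk N0 k := by exact_mod_cast card_addr _
    have a4 : ∀ t ∈ addr (mk N0 k), M.E (fun z => ∑ t' ∈ (addr (mk N0 k)).erase t,
        badG N0 L0 k (t ++ w) z * badG N0 L0 k (t' ++ w) z)
        ≤ 5 ^ mk N0 k * (epsk N0 k * epsk N0 k) := by
      intro t ht
      rw [M.E_sum]
      refine (sum_le_card_nsmul _ _ _ (a3 t ht)).trans ?_
      rw [nsmul_eq_mul]
      refine mul_le_mul_of_nonneg_right (le_trans ?_ c1) (mul_nonneg e0 e0)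
      exact_mod_cast card_erase_le
    refine (sum_le_card_nsmul _ _ _ a4).trans ?_
    rw [nsmul_eq_mul]
    refine (mul_le_mul_of_nonneg_right c1 (by positivity)).trans ?_
    have e1 : mk N0 (k + 1) = mk N0 k + 4 := by unfold mk; ring
    unfold epsk
    rw [e1]
    have e2 : (5:ℝ) ^ mk N0 k * (5 ^ mk N0 k * (1 / 25) ^ mk N0 k) = 1 := by
      rw [← mul_pow, ← mul_pow]; norm_num
    have e3 : (1 / 2 : ℝ) ^ k ≤ 1 := pow_le_one₀ (by norm_num) (by norm_num)
    have e4 : (0:ℝ) ≤ (1 / 25) ^ mk N0 k * (1 / 2) ^ k := by positivity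
    calc _ = ((5:ℝ) ^ mk N0 k * (5 ^ mk N0 k * (1 / 25) ^ mk N0 k)) *
          ((1 / 25) ^ mk N0 k * (1 / 2) ^ k) * ((1 / 25) ^ 10 * (1 / 2) ^ k) := by ring
      _ ≤ ((1 / 25 : ℝ) ^ mk N0 k * (1 / 2) ^ k) * ((1 / 25) ^ 9 * (1 / 2)) := by
          rw [e2, one_mul]
          refine mul_le_mul_of_nonneg_left ?_ e4
          nlinarith
      _ = _ := by ring

def stp (d : List ℕ → ℕ) (w : List ℕ) (r : ℕ) : List ℕ :=
  if w = [] then [r / (30 / d w)]
  else if r / (30 / (d w + 1)) = 0 then w.tail else (r / (30 / (d w + 1)) - 1) :: w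

def Yw (d : List ℕ → ℕ) (n : ℕ) (z : List ℕ × ℕ → ℕ) (u : List ℕ) : ℕ → List ℕ
  | 0 => u
  | t + 1 => if n ≤ (Yw d n z u t).length then Yw d n z u t
      else stp d (Yw d n z u t) (z (u, t + 1))

theorem Yw_congr (d : List ℕ → ℕ) (n : ℕ) {z z' : List ℕ × ℕ → ℕ} (u : List ℕ) (t : ℕ)
    (h : ∀ s, s < t → z (u, s + 1) = z' (u, s + 1)) : Yw d n z u t = Yw d n z' u t := by
  induction t with
  | zero => rfl
  | succ t ih =>
    simp only [Yw]
    rw [ih (fun s hs => h s (by omega)), h t (by omega)]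

theorem avg_root {d : List ℕ → ℕ} (hd : d [] = 2 ∨ d [] = 5) (f : List ℕ → ℝ) :
    ∑ r ∈ range 30, 1 / 30 * f (stp d [] r) = (∑ i ∈ range (d []), f [i]) / d [] := by
  rcases hd with h | h <;> simp [stp, h, sum_range_succ] <;> ring

theorem avg_int {d : List ℕ → ℕ} {j : ℕ} {w : List ℕ} (hd : d (j :: w) = 2 ∨ d (j :: w) = 5)
    (f : List ℕ → ℝ) : ∑ r ∈ range 30, 1 / 30 * f (stp d (j :: w) r)
      = (f w + ∑ i ∈ range (d (j :: w)), f (i :: j :: w)) / (d (j :: w) + 1) := by
  rcases hd with h | h <;> simp [stp, h, sum_range_succ] <;> ring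

namespace Net

variable (N : Net) (hd : ∀ w, N.d w = 2 ∨ N.d w = 5)
include hd

theorem stp_valid {w : List ℕ} (hw : N.Valid w) (hl : w.length < N.n) {r : ℕ} (hr : r < 30) :
    N.Valid (stp N.d w r) ∧ (stp N.d w r).length ≤ N.n := by
  unfold stp
  split_ifs with h1 h2
  · subst h1
    refine ⟨⟨?_, trivial⟩, by simp at hl ⊢; omega⟩
    rcases hd [] with h | h <;> rw [h] <;> omega
  · exact ⟨N.valid_suffix hw (List.tail_suffix w), by simp; omega⟩
  · refine ⟨⟨?_, hw⟩, by simp; omega⟩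
    rcases hd w with h | h <;> rw [h] at h2 ⊢ <;> omega

theorem Yw_valid {z : List ℕ × ℕ → ℕ} (hz : ∀ i, z i < 30) {u : List ℕ} (hu : N.Valid u)
    (hl : u.length ≤ N.n) (t : ℕ) :
    N.Valid (Yw N.d N.n z u t) ∧ (Yw N.d N.n z u t).length ≤ N.n := by
  induction t with
  | zero => exact ⟨hu, hl⟩
  | succ t ih =>
    simp only [Yw]
    split_ifs with h
    · exact ih
    · exact N.stp_valid hd ih.1 (by omega) (hz _)

theorem supermart {p : ℝ} (h0 : 0 ≤ p) (h1 : p ≤ 1) (I : Finset (List ℕ × ℕ))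
    (f : List ℕ → ℝ) {c : ℝ} (hc : 0 ≤ c)
    (hf : ∀ w, N.Valid w → w.length < N.n → ∑ r ∈ range 30, 1 / 30 * f (stp N.d w r) ≤ c * f w)
    (hf' : ∀ w, N.n ≤ w.length → f w ≤ c * f w)
    {u : List ℕ} (hu : N.Valid u) (hl : u.length ≤ N.n) (t : ℕ)
    (hI : ∀ s, s < t → (u, s + 1) ∈ I) :
    (PMZ h0 h1 I).E (fun z => f (Yw N.d N.n z u t)) ≤ c ^ t * f u := by
  set M := PMZ h0 h1 I with hM
  induction t with
  | zero => simp [Yw, M.E_const]
  | succ t ih =>
    have e := M.E_coord (u := (u, t + 1)) (hI t (by omega))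
      (fun r z => f (if N.n ≤ (Yw N.d N.n z u t).length then Yw N.d N.n z u t
        else stp N.d (Yw N.d N.n z u t) r)) (by
        intro r z z' h
        simp only
        rw [Yw_congr N.d N.n u t (z := z) (z' := z') (fun s hs => h _ (by simp; omega))])
    simp only [Yw]
    rw [e, pow_succ', mul_assoc]
    refine le_trans ?_ (mul_le_mul_of_nonneg_left (ih (fun s hs => hI s (by omega))) hc)
    rw [← M.E_smul]
    refine M.E_mono' (fun z hz _ => ?_)
    have hv := N.Yw_valid hd (fun i => mem_range.1 (hz i)) hu hl t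
    change ∑ r ∈ range 30, muZ p (u, t + 1) r * _ ≤ _
    simp only [muZ, Nat.add_eq_zero_iff, one_ne_zero, and_false, if_false]
    split_ifs with h
    · rw [← sum_mul]
      simpa using hf' _ h
    · exact hf _ hv.1 (by omega)

theorem law_le {p : ℝ} (h0 : 0 ≤ p) (h1 : p ≤ 1) (I : Finset (List ℕ × ℕ))
    {u : List ℕ} (hu : N.Valid u) (hl : u.length ≤ N.n) (t : ℕ)
    (hI : ∀ s, s < t → (u, s + 1) ∈ I) {y : List ℕ} (hy : y ∈ N.L) :
    (PMZ h0 h1 I).E (fun z => if Yw N.d N.n z u t = y then 1 else 0) ≤ N.H u y := by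
  have := N.supermart hd h0 h1 I (fun w => N.H w y) (c := 1) zero_le_one (by
    intro w _ hl
    cases w with
    | nil =>
      rw [avg_root (hd _) (fun w => N.H w y), N.harm_root hl]
      have : (0:ℝ) < N.d [] := by exact_mod_cast lt_of_lt_of_le (by norm_num) (N.lo [])
      rw [one_mul, mul_div_cancel_left₀ _ this.ne']
    | cons j w =>
      rw [avg_int (hd _) (fun w => N.H w y), N.harm_int hl, one_mul, mul_div_cancel_left₀]
      positivity) (fun w _ => by simp) hu hl t hI
  rw [one_pow, one_mul] at this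
  refine le_trans ((PMZ h0 h1 I).E_mono (fun z => ?_)) this
  split_ifs with h
  · rw [h, N.H_leaf (N.mem_L.1 hy).2.ge]
  · exact N.H_nn _ _

theorem surv_le {p : ℝ} (h0 : 0 ≤ p) (h1 : p ≤ 1) (I : Finset (List ℕ × ℕ))
    {u : List ℕ} (hu : N.Valid u) (hl : u.length ≤ N.n) (t : ℕ)
    (hI : ∀ s, s < t → (u, s + 1) ∈ I) :
    (PMZ h0 h1 I).E (fun z => if (Yw N.d N.n z u t).length < N.n then 1 else 0)
      ≤ (10 / 7) ^ N.n * (19 / 20) ^ t := by
  let f : List ℕ → ℝ := fun w => if w.length < N.n then (7 / 10) ^ w.length else 0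
  have f0 : ∀ w, 0 ≤ f w := fun w => by simp only [f]; split_ifs <;> positivity
  have f1 : ∀ w, f w ≤ (7 / 10) ^ w.length := fun w => by
    simp only [f]; split_ifs
    · exact le_rfl
    · positivity
  have := N.supermart hd h0 h1 I f (c := 19 / 20) (by norm_num) (by
    intro w _ hl
    have e : f w = (7 / 10) ^ w.length := if_pos hl
    have hs : ∑ i ∈ range (N.d w), f (i :: w) ≤ N.d w * ((7 / 10) ^ w.length * (7 / 10)) := by
      have := sum_le_card_nsmul (range (N.d w)) (fun i => f (i :: w))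
        ((7 / 10) ^ w.length * (7 / 10)) (fun i _ => by
          have := f1 (i :: w)
          rwa [List.length_cons, pow_succ] at this)
      rwa [card_range, nsmul_eq_mul] at this
    cases w with
    | nil =>
      rw [avg_root (hd _) f, e]
      have : (0:ℝ) < N.d [] := by exact_mod_cast lt_of_lt_of_le (by norm_num) (N.lo [])
      rw [div_le_iff₀ this]
      simp only [List.length_nil, pow_zero] at hs ⊢
      linarith
    | cons j w =>
      rw [avg_int (hd _) f, e, div_le_iff₀ (by positivity)]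
      have h2 := f1 w
      have h3 : (0:ℝ) ≤ (7 / 10) ^ w.length := by positivity
      simp only [List.length_cons, pow_succ] at hs ⊢
      rcases hd (j :: w) with h | h <;> rw [h] at hs ⊢ <;> push_cast at hs ⊢ <;> linarith)
    (fun w hw => by simp only [f]; rw [if_neg (by omega)]; simp) hu hl t hI
  have e1 : (PMZ h0 h1 I).E (fun z => if (Yw N.d N.n z u t).length < N.n then 1 else 0)
      ≤ (PMZ h0 h1 I).E (fun z => (10 / 7) ^ N.n * f (Yw N.d N.n z u t)) := by
    refine (PMZ h0 h1 I).E_mono (fun z => ?_)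
    simp only [f]
    split_ifs with h
    · have q1 : (7 / 10 : ℝ) ^ N.n ≤ (7 / 10) ^ (Yw N.d N.n z u t).length :=
        pow_le_pow_of_le_one (by norm_num) (by norm_num) h.le
      have q2 : (10 / 7 : ℝ) ^ N.n * (7 / 10) ^ N.n = 1 := by rw [← mul_pow]; norm_num
      have := mul_le_mul_of_nonneg_left q1 (by positivity : (0:ℝ) ≤ (10 / 7) ^ N.n)
      linarith
    · simp
  refine e1.trans ?_
  rw [PM.E_smul]
  refine mul_le_mul_of_nonneg_left (this.trans ?_) (by positivity)
  exact mul_le_of_le_one_right (by positivity)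
    ((f1 u).trans (pow_le_one₀ (by norm_num) (by norm_num)))

omit hd in
/-- exit points of all frogs -/
noncomputable def yOf (m : ℕ) (z : List ℕ × ℕ → ℕ) : List ℕ → List ℕ :=
  N.PMH.ext (fun u => Yw N.d N.n z u m)

theorem push {p : ℝ} (h0 : 0 ≤ p) (h1 : p ≤ 1) (I : Finset (List ℕ × ℕ)) (m : ℕ)
    (hI : ∀ u ∈ N.U, ∀ s, s < m → (u, s + 1) ∈ I) (F : (List ℕ → List ℕ) → ℝ)
    (hF0 : ∀ y, 0 ≤ F y) :
    (PMZ h0 h1 I).E (fun z => if ∀ u ∈ N.U, Yw N.d N.n z u m ∈ N.L then F (N.yOf m z) else 1)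
      ≤ N.PMH.E F + N.U.card * ((10 / 7) ^ N.n * (19 / 20) ^ m) := by
  set M := PMZ h0 h1 I with hM
  have a1 : M.E (fun z => if ∀ u ∈ N.U, Yw N.d N.n z u m ∈ N.L then F (N.yOf m z) else 1)
      ≤ M.E (fun z => (∑ x ∈ N.PMH.S, F (N.PMH.ext x) *
          ∏ u : N.U, if Yw N.d N.n z u m = x u then 1 else 0)
        + ∑ u ∈ N.U, if (Yw N.d N.n z u m).length < N.n then 1 else 0) := by
    refine M.E_mono' (fun z hz _ => ?_)
    have n1 : ∀ x ∈ N.PMH.S, 0 ≤ F (N.PMH.ext x) *
        ∏ u : N.U, if Yw N.d N.n z u m = x u then (1:ℝ) else 0 := fun x _ =>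
      mul_nonneg (hF0 _) (prod_nonneg (fun u _ => by split_ifs <;> norm_num))
    have n2 : ∀ u ∈ N.U, (0:ℝ) ≤ if (Yw N.d N.n z u m).length < N.n then 1 else 0 :=
      fun u _ => by split_ifs <;> norm_num
    split_ifs with h
    · have hx : (fun u : N.U => Yw N.d N.n z u m) ∈ N.PMH.S :=
        N.PMH.mem_S.2 (fun u => h u u.2)
      have := single_le_sum n1 hx
      simp only [if_true, prod_const_one, mul_one] at this
      exact le_add_of_le_of_nonneg this (sum_nonneg n2)
    · push Not at h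
      obtain ⟨u, hu, hL⟩ := h
      have hv := N.Yw_valid hd (fun i => mem_range.1 (hz i)) (N.mem_U.1 hu).1 (N.mem_U.1 hu).2 m
      have hlt : (Yw N.d N.n z u m).length < N.n :=
        lt_of_le_of_ne hv.2 (fun e => hL (N.mem_L.2 ⟨hv.1, e⟩))
      have := single_le_sum n2 hu
      rw [if_pos hlt] at this
      have := sum_nonneg n1
      linarith
  refine a1.trans ?_
  rw [M.E_add, M.E_sum, M.E_sum]
  refine add_le_add ?_ ?_
  · refine sum_le_sum (fun x hx => ?_)
    rw [M.E_smul, mul_comm, M.E_prod univ _ (fun u : N.U => {i | i.1 = u})]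
    · refine mul_le_mul_of_nonneg_right (prod_le_prod (fun u _ => ?_) (fun u _ => ?_)) (hF0 _)
      · exact M.E_nonneg (fun z => by split_ifs <;> norm_num)
      · exact N.law_le hd h0 h1 I (N.mem_U.1 u.2).1 (N.mem_U.1 u.2).2 m (hI u u.2)
          (N.PMH.mem_S.1 hx u)
    · intro u _ z z' h
      simp only
      rw [Yw_congr N.d N.n u m (z := z) (z' := z') (fun s _ => h _ rfl)]
    · intro u _ u' _ hne
      rw [Set.disjoint_left]
      intro i h1 h2
      exact hne (Subtype.ext (h1.symm.trans h2))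
  · refine (sum_le_card_nsmul _ _ _ (fun u hu =>
      N.surv_le hd h0 h1 I (N.mem_U.1 hu).1 (N.mem_U.1 hu).2 m (hI u hu))).trans ?_
    rw [nsmul_eq_mul]

end Net

end Pool.Agent.H582Z.Frog
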